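import Mathlib

/-! A 9-regular 8-edge-connected multigraph on 148 vertices without circular 5/2-flow. -/

set_option autoImplicit false

namespace Pool.Agent.MP_a2b267_co.Cex

open Finset

/-! ### Real arithmetic -/

def Five (x : ℝ) : Prop := x = 5 ∨ x = -5

def Node (l r b : ℝ) : Prop :=
  |l| ≤ 4 ∧ |r| ≤ 4 ∧ |b| ≤ 2 ∧ |l + r| ≤ 4 + |b| ∧ ∃ t : ℤ, r - l + b = 10 * t

lemma Five.ex {x : ℝ} (h : Five x) :
    ∃ s : ℝ, ∃ m : ℤ, (s = 1 ∨ s = -1) ∧ s = 2 * m + 1 ∧ x = 5 * s ∧ s * x = 5 ∧ s * s = 1 := by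
  rcases h with h | h
  · exact ⟨1, 0, Or.inl rfl, by norm_num, by rw [h]; norm_num, by rw [h]; norm_num, by norm_num⟩
  · exact ⟨-1, -1, Or.inr rfl, by norm_num, by rw [h]; norm_num, by rw [h]; norm_num, by norm_num⟩

lemma term {k s t : ℝ} (hk : |k| ≤ 1) (hs : s = 1 ∨ s = -1) (ht : t = 1 ∨ t = -1) :
    s * k - t * k ≤ 1 - s * t := by
  have := abs_le.mp hk
  rcases hs with rfl | rfl <;> rcases ht with rfl | rfl <;> linarith [this.1, this.2]

lemma thru {a b s : ℝ} (ha : |a| ≤ 1) (hb : |b| ≤ 1) (hs : s = 1 ∨ s = -1) :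
    s * b - s * a ≤ 2 - (a + b) ∧ s * b - s * a ≤ 2 + (a + b) := by
  have h1 := abs_le.mp ha
  have h2 := abs_le.mp hb
  rcases hs with rfl | rfl <;> constructor <;> linarith [h1.1, h1.2, h2.1, h2.2]

lemma abs4 {a b c d : ℝ} (ha : |a| ≤ 1) (hb : |b| ≤ 1) (hc : |c| ≤ 1) (hd : |d| ≤ 1) :
    |a + b + c + d| ≤ 4 := by
  have h1 := abs_le.mp ha
  have h2 := abs_le.mp hb
  have h3 := abs_le.mp hc
  have h4 := abs_le.mp hd
  rw [abs_le]; constructor <;> linarith [h1.1, h1.2, h2.1, h2.2, h3.1, h3.2, h4.1, h4.2]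

/-- The pole `K₈` plus a triangle. -/
lemma pole (k : Fin 41 → ℝ) (hk : ∀ p, |k p| ≤ 1)
    (n0 : Five ((k 0 + k 1 + k 2 + k 3 + k 4 + k 5 + k 6 + k 35) - (k 31)))
    (n1 : Five ((k 7 + k 8 + k 9 + k 10 + k 11 + k 12 + k 36) - (k 0 + k 32)))
    (n2 : Five ((k 13 + k 14 + k 15 + k 16 + k 17 + k 37) - (k 1 + k 7 + k 33)))
    (n3 : Five ((k 18 + k 19 + k 20 + k 21 + k 38) - (k 2 + k 8 + k 13 + k 34)))
    (n4 : Five ((k 22 + k 23 + k 24 + k 40) - (k 3 + k 9 + k 14 + k 18 + k 39)))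
    (n5 : Five ((k 25 + k 26 + k 28 + k 29) - (k 4 + k 10 + k 15 + k 19 + k 22)))
    (n6 : Five ((k 27 + k 30) - (k 5 + k 11 + k 16 + k 20 + k 23 + k 25 + k 28)))
    (n7 : Five ((0) - (k 6 + k 12 + k 17 + k 21 + k 24 + k 26 + k 27 + k 29 + k 30))) :
    Node (k 31 + k 32 + k 33 + k 34) (k 35 + k 36 + k 37 + k 38) (k 40 - k 39) := by
  obtain ⟨s0, m0, h0, p0, e0, q0, r0⟩ := n0.ex
  obtain ⟨s1, m1, h1, p1, e1, q1, r1⟩ := n1.ex
  obtain ⟨s2, m2, h2, p2, e2, q2, r2⟩ := n2.ex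
  obtain ⟨s3, m3, h3, p3, e3, q3, r3⟩ := n3.ex
  obtain ⟨s4, m4, h4, p4, e4, q4, r4⟩ := n4.ex
  obtain ⟨s5, m5, h5, p5, e5, q5, r5⟩ := n5.ex
  obtain ⟨s6, m6, h6, p6, e6, q6, r6⟩ := n6.ex
  obtain ⟨s7, m7, h7, p7, e7, q7, r7⟩ := n7.ex
  have T0 := term (hk 0) h0 h1
  have T1 := term (hk 1) h0 h2
  have T2 := term (hk 2) h0 h3
  have T3 := term (hk 3) h0 h4
  have T4 := term (hk 4) h0 h5
  have T5 := term (hk 5) h0 h6
  have T6 := term (hk 6) h0 h7
  have T7 := term (hk 7) h1 h2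
  have T8 := term (hk 8) h1 h3
  have T9 := term (hk 9) h1 h4
  have T10 := term (hk 10) h1 h5
  have T11 := term (hk 11) h1 h6
  have T12 := term (hk 12) h1 h7
  have T13 := term (hk 13) h2 h3
  have T14 := term (hk 14) h2 h4
  have T15 := term (hk 15) h2 h5
  have T16 := term (hk 16) h2 h6
  have T17 := term (hk 17) h2 h7
  have T18 := term (hk 18) h3 h4
  have T19 := term (hk 19) h3 h5
  have T20 := term (hk 20) h3 h6
  have T21 := term (hk 21) h3 h7
  have T22 := term (hk 22) h4 h5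
  have T23 := term (hk 23) h4 h6
  have T24 := term (hk 24) h4 h7
  have T25 := term (hk 25) h5 h6
  have T26 := term (hk 26) h5 h7
  have T27 := term (hk 27) h6 h7
  have T28 := term (hk 28) h5 h6
  have T29 := term (hk 29) h5 h7
  have T30 := term (hk 30) h6 h7
  have U0 := thru (hk 31) (hk 35) h0
  have U1 := thru (hk 32) (hk 36) h1
  have U2 := thru (hk 33) (hk 37) h2
  have U3 := thru (hk 34) (hk 38) h3
  have U4 : s4 * k 40 - s4 * k 39 ≤ |k 40 - k 39| := by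
    rcases h4 with rfl | rfl
    · linarith [le_abs_self (k 40 - k 39)]
    · linarith [neg_abs_le (k 40 - k 39)]
  have tri : -1 ≤ s5 * s6 + s5 * s7 + s6 * s7 := by
    rcases h5 with rfl | rfl <;> rcases h6 with rfl | rfl <;> rcases h7 with rfl | rfl <;> norm_num
  have sq := mul_self_nonneg (s0 + s1 + s2 + s3 + s4 + s5 + s6 + s7)
  have key : 4 ≤ (s0 * k 35 - s0 * k 31) + (s1 * k 36 - s1 * k 32) + (s2 * k 37 - s2 * k 33)
      + (s3 * k 38 - s3 * k 34) + (s4 * k 40 - s4 * k 39) := by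
    linarith [T0, T1, T2, T3, T4, T5, T6, T7, T8, T9, T10, T11, T12, T13, T14, T15, T16, T17, T18, T19, T20, T21, T22, T23, T24, T25, T26, T27, T28, T29, T30]
  refine ⟨abs4 (hk _) (hk _) (hk _) (hk _), abs4 (hk _) (hk _) (hk _) (hk _), ?_, ?_,
    m0 + m1 + m2 + m3 + m4 + m5 + m6 + m7 + 4, ?_⟩
  · have a1 := abs_le.mp (hk 40)
    have a2 := abs_le.mp (hk 39)
    rw [abs_le]; constructor <;> linarith [a1.1, a1.2, a2.1, a2.2]
  · rw [abs_le]; constructor <;> linarith [U0.1, U0.2, U1.1, U1.2, U2.1, U2.2, U3.1, U3.2]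
  · push_cast
    linarith

lemma node_cases {l r b : ℝ} (h : Node l r b) : r - l + b = 0 ∨ |b| = 2 := by
  obtain ⟨h1, h2, h3, -, t, ht⟩ := h
  have a1 := abs_le.mp h1
  have a2 := abs_le.mp h2
  have a3 := abs_le.mp h3
  rcases lt_trichotomy t 0 with h | h | h
  · have : (t : ℝ) ≤ -1 := by exact_mod_cast (by omega : t ≤ -1)
    right
    have : b = -2 := by linarith [a1.1, a1.2, a2.1, a2.2, a3.1, a3.2]
    rw [this]; norm_num
  · left; rw [ht, h]; norm_num
  · have : (1 : ℝ) ≤ t := by exact_mod_cast (by omega : 1 ≤ t)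
    right
    have : b = 2 := by linarith [a1.1, a1.2, a2.1, a2.2, a3.1, a3.2]
    rw [this]; norm_num

lemma two_of_sum {a b c d : ℝ} (h : a + b + c + d = 0) (ha : |a| = 2) :
    4 ≤ |a| + |b| + |c| + |d| := by
  have h1 : a = -(b + c + d) := by linarith
  have h2 : |a| ≤ |b| + |c| + |d| := by
    rw [h1, abs_neg]; exact abs_add_three b c d
  linarith

/-- A rim of four nodes and four plain vertices with two crossing chords. -/
lemma rim {l0 l1 l2 l3 r0 r1 r2 r3 b0 b1 b2 b3 c0 c1 : ℝ}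
    (N0 : Node l0 r0 b0) (N1 : Node l1 r1 b1) (N2 : Node l2 r2 b2) (N3 : Node l3 r3 b3)
    (hc0 : |c0| ≤ 1) (hc1 : |c1| ≤ 1)
    (z0 : Five (l0 + c0 - r3)) (z1 : Five (l1 + c1 - r0))
    (z2 : Five (l2 - (r1 + c0))) (z3 : Five (l3 - (r2 + c1))) :
    b0 + b1 + b2 + b3 = 0 ∧ 4 ≤ |b0| + |b1| + |b2| + |b3| := by
  by_cases hB : 4 ≤ |b0| + |b1| + |b2| + |b3|
  · refine ⟨?_, hB⟩
    obtain ⟨-, -, a0, -, t0, e0⟩ := N0
    obtain ⟨-, -, a1, -, t1, e1⟩ := N1
    obtain ⟨-, -, a2, -, t2, e2⟩ := N2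
    obtain ⟨-, -, a3, -, t3, e3⟩ := N3
    obtain ⟨s0, m0, -, p0, f0, -⟩ := z0.ex
    obtain ⟨s1, m1, -, p1, f1, -⟩ := z1.ex
    obtain ⟨s2, m2, -, p2, f2, -⟩ := z2.ex
    obtain ⟨s3, m3, -, p3, f3, -⟩ := z3.ex
    have hs : b0 + b1 + b2 + b3
        = 10 * ((t0 + t1 + t2 + t3 + m0 + m1 + m2 + m3 + 2 : ℤ) : ℝ) := by
      push_cast; linarith
    generalize t0 + t1 + t2 + t3 + m0 + m1 + m2 + m3 + 2 = t at hs
    have a0 := abs_le.mp a0
    have a1 := abs_le.mp a1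
    have a2 := abs_le.mp a2
    have a3 := abs_le.mp a3
    have h1 : (t : ℝ) < 1 := by linarith [a0.2, a1.2, a2.2, a3.2]
    have h2 : (-1 : ℝ) < t := by linarith [a0.1, a1.1, a2.1, a3.1]
    have h1 : t < 1 := by exact_mod_cast h1
    have h2 : -1 < t := by exact_mod_cast h2
    have : t = 0 := by omega
    rw [hs, this]; norm_num
  · exfalso
    have hs : b0 + b1 + b2 + b3 = 0 := by
      obtain ⟨-, -, a0, -, t0, e0⟩ := N0
      obtain ⟨-, -, a1, -, t1, e1⟩ := N1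
      obtain ⟨-, -, a2, -, t2, e2⟩ := N2
      obtain ⟨-, -, a3, -, t3, e3⟩ := N3
      obtain ⟨s0, m0, -, p0, f0, -⟩ := z0.ex
      obtain ⟨s1, m1, -, p1, f1, -⟩ := z1.ex
      obtain ⟨s2, m2, -, p2, f2, -⟩ := z2.ex
      obtain ⟨s3, m3, -, p3, f3, -⟩ := z3.ex
      have hs : b0 + b1 + b2 + b3
          = 10 * ((t0 + t1 + t2 + t3 + m0 + m1 + m2 + m3 + 2 : ℤ) : ℝ) := by
        push_cast; linarith
      generalize t0 + t1 + t2 + t3 + m0 + m1 + m2 + m3 + 2 = t at hs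
      have a0 := abs_le.mp a0
      have a1 := abs_le.mp a1
      have a2 := abs_le.mp a2
      have a3 := abs_le.mp a3
      have h1 : (t : ℝ) < 1 := by linarith [a0.2, a1.2, a2.2, a3.2]
      have h2 : (-1 : ℝ) < t := by linarith [a0.1, a1.1, a2.1, a3.1]
      have h1 : t < 1 := by exact_mod_cast h1
      have h2 : -1 < t := by exact_mod_cast h2
      have : t = 0 := by omega
      rw [hs, this]; norm_num
    have e0 : r0 - l0 + b0 = 0 := (node_cases N0).resolve_right fun h =>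
      hB (two_of_sum hs h)
    have e1 : r1 - l1 + b1 = 0 := (node_cases N1).resolve_right fun h =>
      hB (by linarith [two_of_sum (by linarith : b1 + b0 + b2 + b3 = 0) h])
    have e2 : r2 - l2 + b2 = 0 := (node_cases N2).resolve_right fun h =>
      hB (by linarith [two_of_sum (by linarith : b2 + b0 + b1 + b3 = 0) h])
    have e3 : r3 - l3 + b3 = 0 := (node_cases N3).resolve_right fun h =>
      hB (by linarith [two_of_sum (by linarith : b3 + b0 + b1 + b2 = 0) h])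
    have g0 := abs_le.mp N0.2.2.2.1
    have g1 := abs_le.mp N1.2.2.2.1
    have g2 := abs_le.mp N2.2.2.2.1
    have g3 := abs_le.mp N3.2.2.2.1
    have d0 := abs_le.mp hc0
    have d1 := abs_le.mp hc1
    have u0 := le_abs_self b0
    have u1 := le_abs_self b1
    have u2 := le_abs_self b2
    have u3 := le_abs_self b3
    have v0 := neg_abs_le b0
    have v1 := neg_abs_le b1
    have v2 := neg_abs_le b2
    have v3 := neg_abs_le b3
    rw [not_le] at hB
    generalize |b0| = B0 at *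
    generalize |b1| = B1 at *
    generalize |b2| = B2 at *
    generalize |b3| = B3 at *
    rcases z0 with z0 | z0 <;> rcases z1 with z1 | z1 <;> rcases z2 with z2 | z2 <;>
      rcases z3 with z3 | z3 <;>
      linarith [g0.1, g0.2, g1.1, g1.2, g2.1, g2.2, g3.1, g3.2, d0.1, d0.2, d1.1, d1.2]

/-! ### The graph -/

abbrev V := (Fin 4 × Fin 4 × Fin 8) ⊕ (Fin 4 × Fin 4) ⊕ Fin 4
abbrev E := (Fin 4 × Fin 4 × Fin 41) ⊕ (Fin 4 × Fin 2) ⊕ Fin 2

abbrev vx (j i : Fin 4) (a : Fin 8) : V := Sum.inl (j, i, a)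
abbrev vz (j i : Fin 4) : V := Sum.inr (Sum.inl (j, i))
abbrev vu (j : Fin 4) : V := Sum.inr (Sum.inr j)
abbrev ek (j i : Fin 4) (p : Fin 41) : E := Sum.inl (j, i, p)
abbrev ec (j : Fin 4) (c : Fin 2) : E := Sum.inr (Sum.inl (j, c))
abbrev eo (c : Fin 2) : E := Sum.inr (Sum.inr c)

def ka (p : Fin 41) : Fin 8 := ([0, 0, 0, 0, 0, 0, 0, 1, 1, 1, 1, 1, 1, 2, 2, 2, 2, 2, 3, 3, 3, 3, 4, 4, 4, 5, 5, 6, 5, 5, 6] ++ [0, 0, 0, 0, 0, 1, 2, 3, 0, 4] : List (Fin 8)).getD p 0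
def kb (p : Fin 41) : Fin 8 := ([1, 2, 3, 4, 5, 6, 7, 2, 3, 4, 5, 6, 7, 3, 4, 5, 6, 7, 4, 5, 6, 7, 5, 6, 7, 6, 7, 7, 6, 7, 7] ++ [0, 1, 2, 3, 0, 0, 0, 0, 4, 0] : List (Fin 8)).getD p 0

def lo (c : Fin 2) : Fin 4 := if c = 0 then 0 else 1

def src : E → V
  | Sum.inl (j, i, p) =>
      if 31 ≤ p.val ∧ p.val < 35 then vz j i else if p.val = 39 then vu j else vx j i (ka p)
  | Sum.inr (Sum.inl (j, c)) => vz j (lo c)
  | Sum.inr (Sum.inr c) => vu (lo c)

def tgt : E → V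
  | Sum.inl (j, i, p) =>
      if 35 ≤ p.val ∧ p.val < 39 then vz j (i + 1) else if p.val = 40 then vu (j + 1)
      else vx j i (kb p)
  | Sum.inr (Sum.inl (j, c)) => vz j (lo c + 2)
  | Sum.inr (Sum.inr c) => vu (lo c + 2)

def outX (a : Fin 8) : List (Fin 41) := ([[0, 1, 2, 3, 4, 5, 6, 35], [7, 8, 9, 10, 11, 12, 36], [13, 14, 15, 16, 17, 37], [18, 19, 20, 21, 38], [22, 23, 24, 40], [25, 26, 28, 29], [27, 30], []] : List (List (Fin 41))).getD a []
def inX (a : Fin 8) : List (Fin 41) := ([[31], [0, 32], [1, 7, 33], [2, 8, 13, 34], [3, 9, 14, 18, 39], [4, 10, 15, 19, 22], [5, 11, 16, 20, 23, 25, 28], [6, 12, 17, 21, 24, 26, 27, 29, 30]] : List (List (Fin 41))).getD a []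

def outs : V → List E
  | Sum.inl (j, i, a) => (outX a).map (ek j i)
  | Sum.inr (Sum.inl (j, i)) => [ek j i 31, ek j i 32, ek j i 33, ek j i 34] ++
      (if i = 0 then [ec j 0] else if i = 1 then [ec j 1] else [])
  | Sum.inr (Sum.inr j) => [ek j 0 39, ek j 1 39, ek j 2 39, ek j 3 39] ++
      (if j = 0 then [eo 0] else if j = 1 then [eo 1] else [])

def ins : V → List E
  | Sum.inl (j, i, a) => (inX a).map (ek j i)
  | Sum.inr (Sum.inl (j, i)) =>
      [ek j (i + 3) 35, ek j (i + 3) 36, ek j (i + 3) 37, ek j (i + 3) 38] ++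
      (if i = 2 then [ec j 0] else if i = 3 then [ec j 1] else [])
  | Sum.inr (Sum.inr j) => [ek (j + 3) 0 40, ek (j + 3) 1 40, ek (j + 3) 2 40, ek (j + 3) 3 40] ++
      (if j = 2 then [eo 0] else if j = 3 then [eo 1] else [])

instance : DecidableEq V := inferInstance
instance : DecidableEq E := inferInstance
instance : Fintype V := inferInstance
instance : Fintype E := inferInstance

def okE (e : E) : Bool :=
  (outs (src e)).any (fun x => decide (x = e)) && (ins (tgt e)).any (fun x => decide (x = e))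

def okV (v : V) : Bool :=
  decide (outs v).Nodup && decide (ins v).Nodup && (outs v).all (fun e => decide (src e = v)) &&
    (ins v).all (fun e => decide (tgt e = v)) && decide ((outs v).length + (ins v).length = 9)

lemma okE_all : ∀ e : E, okE e = true := by decide +kernel

lemma okV_all : ∀ v : V, okV v = true := by decide +kernel

lemma mem_lists (e : E) : e ∈ outs (src e) ∧ e ∈ ins (tgt e) := by
  have := okE_all e
  simp only [okE, Bool.and_eq_true, List.any_eq_true, decide_eq_true_eq] at this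
  obtain ⟨⟨x, hx, rfl⟩, y, hy, h⟩ := this
  exact ⟨hx, h ▸ hy⟩

lemma lists_ok (v : V) : (outs v).Nodup ∧ (ins v).Nodup ∧ (∀ e ∈ outs v, src e = v) ∧
    (∀ e ∈ ins v, tgt e = v) ∧ (outs v).length + (ins v).length = 9 := by
  have := okV_all v
  simp only [okV, Bool.and_eq_true, List.all_eq_true, decide_eq_true_eq] at this
  exact ⟨this.1.1.1.1, this.1.1.1.2, this.1.1.2, this.1.2, this.2⟩

lemma sum_out (f : E → ℝ) (v : V) :
    ∑ e ∈ univ.filter (fun e => src e = v), f e = ((outs v).map f).sum := by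
  rw [← List.sum_toFinset f (lists_ok v).1]
  congr 1
  ext e
  simp only [mem_filter, mem_univ, true_and, List.mem_toFinset]
  exact ⟨fun h => h ▸ (mem_lists e).1, (lists_ok v).2.2.1 e⟩

lemma sum_in (f : E → ℝ) (v : V) :
    ∑ e ∈ univ.filter (fun e => tgt e = v), f e = ((ins v).map f).sum := by
  rw [← List.sum_toFinset f (lists_ok v).2.1]
  congr 1
  ext e
  simp only [mem_filter, mem_univ, true_and, List.mem_toFinset]
  exact ⟨fun h => h ▸ (mem_lists e).2, (lists_ok v).2.2.2.1 e⟩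

/-! ### No flow -/

lemma list_facts (f h : E → ℝ) (hh : ∀ e, |h e| ≤ 1)
    (hf : ∀ e, ∃ m : ℤ, h e + 4 * f e = 5 * (2 * m + 1)) (L : List E) :
    |(L.map h).sum| ≤ L.length ∧
      ∃ m : ℤ, (L.map h).sum + 4 * (L.map f).sum = 5 * (2 * m + L.length) := by
  induction L with
  | nil => exact ⟨by simp, 0, by simp⟩
  | cons e L ih =>
    obtain ⟨h1, m, hm⟩ := ih
    obtain ⟨m', hm'⟩ := hf e
    simp only [List.map_cons, List.sum_cons, List.length_cons]
    refine ⟨?_, m + m', ?_⟩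
    · push_cast
      linarith [abs_add_le (h e) (L.map h).sum, hh e]
    · push_cast
      linarith

lemma five_at (f h : E → ℝ) (hh : ∀ e, |h e| ≤ 1)
    (hf : ∀ e, ∃ m : ℤ, h e + 4 * f e = 5 * (2 * m + 1)) (v : V)
    (hv : ((ins v).map f).sum = ((outs v).map f).sum) :
    Five (((outs v).map h).sum - ((ins v).map h).sum) := by
  obtain ⟨a1, m1, e1⟩ := list_facts f h hh hf (outs v)
  obtain ⟨a2, m2, e2⟩ := list_facts f h hh hf (ins v)
  have hl : ((outs v).length : ℝ) + (ins v).length = 9 := by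
    exact_mod_cast (lists_ok v).2.2.2.2
  have a1 := abs_le.mp a1
  have a2 := abs_le.mp a2
  have hs : ((outs v).map h).sum - ((ins v).map h).sum
      = 5 * (2 * ((m1 - m2 + 4 - (ins v).length : ℤ) : ℝ) + 1) := by
    push_cast; linarith
  generalize m1 - m2 + 4 - ((ins v).length : ℤ) = t at hs
  have h1 : (t : ℝ) < 1 := by linarith [a1.1, a1.2, a2.1, a2.2]
  have h2 : (-2 : ℝ) < t := by linarith [a1.1, a1.2, a2.1, a2.2]
  have h1 : t < 1 := by exact_mod_cast h1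
  have h2 : -2 < t := by exact_mod_cast h2
  have : t = 0 ∨ t = -1 := by omega
  rcases this with rfl | rfl
  · left; rw [hs]; norm_num
  · right; rw [hs]; norm_num

lemma Five.of_eq {x y : ℝ} (h : Five x) (e : y = x) : Five y := e ▸ h

lemma no_h (h : E → ℝ) (hh : ∀ e, |h e| ≤ 1)
    (H : ∀ v, Five (((outs v).map h).sum - ((ins v).map h).sum)) : False := by
  have HX : ∀ j i, Node (h (ek j i 31) + h (ek j i 32) + h (ek j i 33) + h (ek j i 34))
      (h (ek j i 35) + h (ek j i 36) + h (ek j i 37) + h (ek j i 38))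
      (h (ek j i 40) - h (ek j i 39)) := by
    intro j i
    refine pole (fun p => h (ek j i p)) (fun p => hh _) ((H (vx j i 0)).of_eq ?_)
      ((H (vx j i 1)).of_eq ?_) ((H (vx j i 2)).of_eq ?_) ((H (vx j i 3)).of_eq ?_)
      ((H (vx j i 4)).of_eq ?_) ((H (vx j i 5)).of_eq ?_) ((H (vx j i 6)).of_eq ?_)
      ((H (vx j i 7)).of_eq ?_) <;>
    simp [outs, ins, outX, inX, add_assoc]
  have HW : ∀ j, Node (h (ek j 0 39) + h (ek j 1 39) + h (ek j 2 39) + h (ek j 3 39))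
      (h (ek j 0 40) + h (ek j 1 40) + h (ek j 2 40) + h (ek j 3 40)) 0 := by
    intro j
    have R := rim (HX j 0) (HX j 1) (HX j 2) (HX j 3) (hh (ec j 0)) (hh (ec j 1))
      ((H (vz j 0)).of_eq (by simp [outs, ins, add_assoc]))
      ((H (vz j 1)).of_eq (by simp [outs, ins, add_assoc]))
      ((H (vz j 2)).of_eq (by simp [outs, ins, add_assoc]))
      ((H (vz j 3)).of_eq (by simp [outs, ins, add_assoc]))
    have key : ∀ i, |h (ek j i 40) - h (ek j i 39)| ≤ 2 - (h (ek j i 39) + h (ek j i 40)) ∧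
        |h (ek j i 40) - h (ek j i 39)| ≤ 2 + (h (ek j i 39) + h (ek j i 40)) := by
      intro i
      have a1 := abs_le.mp (hh (ek j i 39))
      have a2 := abs_le.mp (hh (ek j i 40))
      constructor <;> rw [abs_le] <;> constructor <;> linarith [a1.1, a1.2, a2.1, a2.2]
    refine ⟨abs4 (hh _) (hh _) (hh _) (hh _), abs4 (hh _) (hh _) (hh _) (hh _), by norm_num, ?_,
      0, ?_⟩
    · rw [abs_zero, abs_le]
      constructor <;> linarith [R.2, (key 0).1, (key 0).2, (key 1).1, (key 1).2, (key 2).1,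
        (key 2).2, (key 3).1, (key 3).2]
    · push_cast
      linarith [R.1]
  have R := rim (HW 0) (HW 1) (HW 2) (HW 3) (hh (eo 0)) (hh (eo 1))
    ((H (vu 0)).of_eq (by simp [outs, ins, add_assoc]))
    ((H (vu 1)).of_eq (by simp [outs, ins, add_assoc]))
    ((H (vu 2)).of_eq (by simp [outs, ins, add_assoc]))
    ((H (vu 3)).of_eq (by simp [outs, ins, add_assoc]))
  have := R.2
  norm_num at this

theorem no_flow (f : E → ℝ) (hf : ∀ e, 1 ≤ |f e| ∧ |f e| ≤ 3 / 2)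
    (hc : ∀ v : V, (∑ e ∈ univ.filter (fun e => tgt e = v), f e)
      = ∑ e ∈ univ.filter (fun e => src e = v), f e) : False := by
  let h : E → ℝ := fun e => (if 0 ≤ f e then 5 else -5) - 4 * f e
  have hh : ∀ e, |h e| ≤ 1 := by
    intro e
    have := hf e
    simp only [h]
    split_ifs with h0
    · rw [abs_of_nonneg h0] at this
      rw [abs_le]; constructor <;> linarith [this.1, this.2]
    · rw [abs_of_neg (not_le.mp h0)] at this
      rw [abs_le]; constructor <;> linarith [this.1, this.2]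
  have hm : ∀ e, ∃ m : ℤ, h e + 4 * f e = 5 * (2 * m + 1) := by
    intro e
    simp only [h]
    split_ifs with h0
    · exact ⟨0, by norm_num⟩
    · exact ⟨-1, by norm_num⟩
  exact no_h h hh fun v => five_at f h hh hm v (by rw [← sum_in, ← sum_out]; exact hc v)

/-! ### Edge connectivity -/

def walk : V → List E → Option V
  | a, [] => some a
  | a, e :: L => if src e = a then walk (tgt e) L else if tgt e = a then walk (src e) L else none

def Cut (S : Set V) (e : E) : Prop := (src e ∈ S ∧ tgt e ∉ S) ∨ (src e ∉ S ∧ tgt e ∈ S)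

lemma walk_cut (S : Set V) (L : List E) : ∀ a b : V, walk a L = some b → ¬ (a ∈ S ↔ b ∈ S) →
    ∃ e ∈ L, Cut S e := by
  induction L with
  | nil =>
    intro a b h hab
    simp only [walk, Option.some.injEq] at h
    exact absurd (h ▸ Iff.rfl) hab
  | cons e L ih =>
    intro a b h hab
    by_cases hc : Cut S e
    · exact ⟨e, List.mem_cons_self, hc⟩
    have hst : src e ∈ S ↔ tgt e ∈ S := by unfold Cut at hc; tauto
    simp only [walk] at h
    split_ifs at h with h1 h2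
    · obtain ⟨e', he', hc'⟩ := ih _ _ h (by rw [← hst, h1]; exact hab)
      exact ⟨e', List.mem_cons_of_mem _ he', hc'⟩
    · obtain ⟨e', he', hc'⟩ := ih _ _ h (by rw [hst, h2]; exact hab)
      exact ⟨e', List.mem_cons_of_mem _ he', hc'⟩

def Cert (a b : V) (P : List (List E)) : Prop :=
  P.length = 8 ∧ (∀ L ∈ P, walk a L = some b) ∧ P.flatten.Nodup

instance (a b : V) (P : List (List E)) : Decidable (Cert a b P) := by
  unfold Cert; infer_instance

open Classical in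
lemma cert_cut (S : Set V) {a b : V} {P : List (List E)} (h : Cert a b P)
    (hab : ¬ (a ∈ S ↔ b ∈ S)) : 8 ≤ Nat.card {e : E // Cut S e} := by
  obtain ⟨h8, hw, hn⟩ := h
  have key : ∀ Q : List (List E), (∀ L ∈ Q, ∃ e ∈ L, Cut S e) →
      Q.length ≤ (Q.flatten.filter (fun e => decide (Cut S e))).length := by
    intro Q
    induction Q with
    | nil => simp
    | cons L Q ih =>
      intro hQ
      have h1 := ih fun L' hL' => hQ L' (List.mem_cons_of_mem _ hL')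
      obtain ⟨e, he, hc⟩ := hQ L List.mem_cons_self
      have h2 : 0 < (L.filter (fun e => decide (Cut S e))).length :=
        List.length_pos_of_mem (List.mem_filter.mpr ⟨he, by simpa using hc⟩)
      simp only [List.flatten_cons, List.filter_append, List.length_append, List.length_cons]
      omega
  have h1 := key P fun L hL => walk_cut S L a b (hw L hL) hab
  rw [Nat.card_eq_fintype_card, Fintype.card_subtype, ← h8]
  refine h1.trans ?_
  rw [← List.toFinset_card_of_nodup (hn.filter _)]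
  refine card_le_card fun e he => ?_
  simp only [List.mem_toFinset, List.mem_filter, decide_eq_true_eq] at he
  simp [he.2]

abbrev Rel := List (List (Fin 4 × Fin 4 × Fin 41))

def place (j i : Fin 4) (P : Rel) : List (List E) :=
  P.map fun L => L.map fun q => ek (j + q.1) (i + q.2.1) q.2.2

def px : Fin 8 → Rel
  | 0 => [[(0,0,6)], [(0,0,0), (0,0,12)], [(0,0,1), (0,0,17)], [(0,0,2), (0,0,21)], [(0,0,3), (0,0,24)], [(0,0,4), (0,0,26)], [(0,0,5), (0,0,27)], [(0,0,31), (0,0,32), (0,0,10), (0,0,29)]]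
  | 1 => [[(0,0,12)], [(0,0,0), (0,0,6)], [(0,0,7), (0,0,17)], [(0,0,8), (0,0,21)], [(0,0,9), (0,0,24)], [(0,0,10), (0,0,26)], [(0,0,11), (0,0,27)], [(0,0,32), (0,0,33), (0,0,15), (0,0,29)]]
  | 2 => [[(0,0,17)], [(0,0,1), (0,0,6)], [(0,0,7), (0,0,12)], [(0,0,13), (0,0,21)], [(0,0,14), (0,0,24)], [(0,0,15), (0,0,26)], [(0,0,16), (0,0,27)], [(0,0,33), (0,0,34), (0,0,19), (0,0,29)]]
  | 3 => [[(0,0,21)], [(0,0,2), (0,0,6)], [(0,0,8), (0,0,12)], [(0,0,13), (0,0,17)], [(0,0,18), (0,0,24)], [(0,0,19), (0,0,26)], [(0,0,20), (0,0,27)], [(0,0,34), (0,0,31), (0,0,4), (0,0,29)]]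
  | 4 => [[(0,0,24)], [(0,0,3), (0,0,6)], [(0,0,9), (0,0,12)], [(0,0,14), (0,0,17)], [(0,0,18), (0,0,21)], [(0,0,22), (0,0,26)], [(0,0,23), (0,0,27)], [(0,0,39), (0,3,39), (0,3,3), (0,3,35), (0,0,31), (0,0,4), (0,0,29)]]
  | 5 => [[(0,0,26)], [(0,0,4), (0,0,6)], [(0,0,10), (0,0,12)], [(0,0,15), (0,0,17)], [(0,0,19), (0,0,21)], [(0,0,22), (0,0,24)], [(0,0,25), (0,0,27)], [(0,0,29)]]
  | 6 => [[(0,0,27)], [(0,0,5), (0,0,6)], [(0,0,11), (0,0,12)], [(0,0,16), (0,0,17)], [(0,0,20), (0,0,21)], [(0,0,23), (0,0,24)], [(0,0,25), (0,0,26)], [(0,0,30)]]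
  | 7 => []

def pzx : Rel := [[(0,0,31), (0,0,6)], [(0,0,32), (0,0,12)], [(0,0,33), (0,0,17)], [(0,0,34), (0,0,21)], [(0,3,35), (0,3,31), (0,2,35), (0,2,31), (0,1,35), (0,1,31), (0,0,35), (0,0,3), (0,0,24)], [(0,3,36), (0,3,32), (0,2,36), (0,2,32), (0,1,36), (0,1,32), (0,0,36), (0,0,10), (0,0,26)], [(0,3,37), (0,3,33), (0,2,37), (0,2,33), (0,1,37), (0,1,33), (0,0,37), (0,0,16), (0,0,27)], [(0,3,38), (0,3,34), (0,2,38), (0,2,34), (0,1,38), (0,1,34), (0,0,38), (0,0,19), (0,0,29)]]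
def pzz : Rel := [[(0,0,31), (0,0,35)], [(0,0,32), (0,0,36)], [(0,0,33), (0,0,37)], [(0,0,34), (0,0,38)], [(0,3,35), (0,3,31), (0,2,35), (0,2,31), (0,1,35), (0,1,31)], [(0,3,36), (0,3,32), (0,2,36), (0,2,32), (0,1,36), (0,1,32)], [(0,3,37), (0,3,33), (0,2,37), (0,2,33), (0,1,37), (0,1,33)], [(0,3,38), (0,3,34), (0,2,38), (0,2,34), (0,1,38), (0,1,34)]]
def puu : Rel := [[(0,0,39), (0,0,40)], [(0,1,39), (0,1,40)], [(0,2,39), (0,2,40)], [(0,3,39), (0,3,40)], [(3,0,40), (3,0,39), (2,0,40), (2,0,39), (1,0,40), (1,0,39)], [(3,1,40), (3,1,39), (2,1,40), (2,1,39), (1,1,40), (1,1,39)], [(3,2,40), (3,2,39), (2,2,40), (2,2,39), (1,2,40), (1,2,39)], [(3,3,40), (3,3,39), (2,3,40), (2,3,39), (1,3,40), (1,3,39)]]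
def puz : Rel := [[(0,0,39), (0,0,3), (0,0,31)], [(0,1,39), (0,1,14), (0,1,33), (0,0,37), (0,0,33)], [(0,2,39), (0,2,14), (0,2,37), (0,3,33), (0,3,37)], [(0,3,39), (0,3,3), (0,3,35)], [(3,0,40), (3,0,39), (2,0,40), (2,0,39), (1,0,40), (1,0,39), (0,0,40), (0,0,9), (0,0,32)], [(3,1,40), (3,1,39), (2,1,40), (2,1,39), (1,1,40), (1,1,39), (0,1,40), (0,1,18), (0,1,34), (0,0,38), (0,0,34)], [(3,2,40), (3,2,39), (2,2,40), (2,2,39), (1,2,40), (1,2,39), (0,2,40), (0,2,18), (0,2,38), (0,3,34), (0,3,38)], [(3,3,40), (3,3,39), (2,3,40), (2,3,39), (1,3,40), (1,3,39), (0,3,40), (0,3,9), (0,3,36)]]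

lemma cert_x : ∀ (j i : Fin 4) (a : Fin 8), a = 7 ∨ Cert (vx j i a) (vx j i 7) (place j i (px a)) := by
  decide +kernel

lemma cert_z : ∀ j i : Fin 4, Cert (vz j i) (vx j i 7) (place j i pzx) ∧
    Cert (vz j i) (vz j (i + 1)) (place j i pzz) := by
  decide +kernel

lemma cert_u : ∀ j : Fin 4, Cert (vu j) (vu (j + 1)) (place j 0 puu) ∧
    Cert (vu j) (vz j 0) (place j 0 puz) := by
  decide +kernel

theorem conn (S : Set V) (h1 : S.Nonempty) (h2 : Sᶜ.Nonempty) :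
    8 ≤ Nat.card {e : E // Cut S e} := by
  by_contra hlt
  have C : ∀ {a b : V} {P : List (List E)}, Cert a b P → (a ∈ S ↔ b ∈ S) := fun h => by
    by_contra hab
    exact hlt (cert_cut S h hab)
  have hu : ∀ j : Fin 4, vu j ∈ S ↔ vu 0 ∈ S := by
    have a0 : vu 0 ∈ S ↔ vu 1 ∈ S := C (cert_u 0).1
    have a1 : vu 1 ∈ S ↔ vu 2 ∈ S := C (cert_u 1).1
    have a2 : vu 2 ∈ S ↔ vu 3 ∈ S := C (cert_u 2).1
    intro j
    fin_cases j
    · exact Iff.rfl
    · exact a0.symm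
    · exact (a0.trans a1).symm
    · exact ((a0.trans a1).trans a2).symm
  have hz : ∀ j i : Fin 4, vz j i ∈ S ↔ vu 0 ∈ S := by
    intro j i
    have b : vz j 0 ∈ S ↔ vu 0 ∈ S := (C (cert_u j).2).symm.trans (hu j)
    have a0 : vz j 0 ∈ S ↔ vz j 1 ∈ S := C (cert_z j 0).2
    have a1 : vz j 1 ∈ S ↔ vz j 2 ∈ S := C (cert_z j 1).2
    have a2 : vz j 2 ∈ S ↔ vz j 3 ∈ S := C (cert_z j 2).2
    fin_cases i
    · exact b
    · exact a0.symm.trans b
    · exact (a0.trans a1).symm.trans b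
    · exact ((a0.trans a1).trans a2).symm.trans b
  have hx : ∀ (j i : Fin 4) (a : Fin 8), vx j i a ∈ S ↔ vu 0 ∈ S := by
    intro j i a
    have b : vx j i 7 ∈ S ↔ vu 0 ∈ S := (C (cert_z j i).1).symm.trans (hz j i)
    rcases cert_x j i a with rfl | h
    · exact b
    · exact (C h).trans b
  have hall : ∀ v : V, v ∈ S ↔ vu 0 ∈ S := by
    rintro (⟨j, i, a⟩ | ⟨j, i⟩ | j)
    · exact hx j i a
    · exact hz j i
    · exact hu j
  obtain ⟨a, ha⟩ := h1
  obtain ⟨b, hb⟩ := h2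
  exact hb ((hall b).mpr ((hall a).mp ha))

end Pool.Agent.MP_a2b267_co.Cex
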