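import Pool.Agent.Lib.MP_a2b267_co.Round

set_option autoImplicit false

namespace Pool.Agent.Lib.MP_a2b267_co

open Finset

variable {V E : Type} [DecidableEq V] [Fintype E]

/-- Number of edges with exactly one end in `A`. -/
def cut (s t : E → V) (A : Finset V) : ℕ := ∑ e, if (s e ∈ A ↔ t e ∈ A) then 0 else 1

/-- Number of edges with one end in `P` and the other end in `Q`. -/
def btw (s t : E → V) (P Q : V → Prop) [DecidablePred P] [DecidablePred Q] : ℕ :=
  ∑ e, if (P (s e) ∧ Q (t e)) ∨ (Q (s e) ∧ P (t e)) then 1 else 0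

lemma cut_inter_union (s t : E → V) (A B : Finset V) :
    cut s t (A ∩ B) + cut s t (A ∪ B) +
      2 * btw s t (fun x => x ∈ A ∧ x ∉ B) (fun x => x ∈ B ∧ x ∉ A) = cut s t A + cut s t B := by
  simp only [cut, btw, mul_sum, ← sum_add_distrib]
  refine sum_congr rfl fun e _ => ?_
  by_cases h1 : s e ∈ A <;> by_cases h2 : s e ∈ B <;> by_cases h3 : t e ∈ A <;>
    by_cases h4 : t e ∈ B <;> simp [h1, h2, h3, h4]

lemma cut_sdiff_sdiff (s t : E → V) (A B : Finset V) :
    cut s t (A \ B) + cut s t (B \ A) +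
      2 * btw s t (fun x => x ∈ A ∧ x ∈ B) (fun x => x ∉ A ∧ x ∉ B) = cut s t A + cut s t B := by
  simp only [cut, btw, mul_sum, ← sum_add_distrib]
  refine sum_congr rfl fun e _ => ?_
  by_cases h1 : s e ∈ A <;> by_cases h2 : s e ∈ B <;> by_cases h3 : t e ∈ A <;>
    by_cases h4 : t e ∈ B <;> simp [h1, h2, h3, h4]

lemma cut_sdiff_inter (s t : E → V) (A B : Finset V) :
    cut s t (A \ B) + cut s t (A ∩ B) = cut s t A +
      2 * btw s t (fun x => x ∈ A ∧ x ∉ B) (fun x => x ∈ A ∧ x ∈ B) := by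
  simp only [cut, btw, mul_sum, ← sum_add_distrib]
  refine sum_congr rfl fun e _ => ?_
  by_cases h1 : s e ∈ A <;> by_cases h2 : s e ∈ B <;> by_cases h3 : t e ∈ A <;>
    by_cases h4 : t e ∈ B <;> simp [h1, h2, h3, h4]

lemma cut_insert (s t : E → V) (A : Finset V) (v : V) (hv : v ∉ A) :
    cut s t (insert v A) + 2 * btw s t (fun x => x = v) (fun x => x ∈ A)
      = cut s t A + cut s t {v} := by
  simp only [cut, btw, mul_sum, ← sum_add_distrib]
  refine sum_congr rfl fun e _ => ?_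
  by_cases h1 : s e ∈ A <;> by_cases h2 : s e = v <;> by_cases h3 : t e ∈ A <;>
    by_cases h4 : t e = v <;> simp_all

lemma cut_compl [Fintype V] (s t : E → V) (A : Finset V) : cut s t Aᶜ = cut s t A := by
  simp only [cut, mem_compl, not_iff_not]

/-- The other end of an edge at `v`. -/
def oth (s t : E → V) (v : V) (e : E) : V := if s e = v then t e else s e

/-- The non-loop edges at `v`. -/
def star (s t : E → V) (v : V) : Finset E := univ.filter fun e => ¬ (s e = v ↔ t e = v)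

lemma card_star (s t : E → V) (v : V) : (star s t v).card = cut s t {v} := by
  simp only [star, cut, card_filter, mem_singleton, ite_not]

lemma btw_star (s t : E → V) (v : V) (A : Finset V) (hv : v ∉ A) :
    btw s t (fun x => x = v) (fun x => x ∈ A)
      = ((star s t v).filter fun e => oth s t v e ∈ A).card := by
  rw [star, filter_filter, card_filter, btw]
  refine sum_congr rfl fun e _ => ?_
  simp only [oth]
  by_cases h1 : s e ∈ A <;> by_cases h2 : s e = v <;> by_cases h3 : t e ∈ A <;>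
    by_cases h4 : t e = v <;> simp_all

/-- Splitting lemma for odd cuts: at a vertex of positive even degree some pair of edges is not
covered by a tight odd set. -/
lemma exists_split [Fintype V] (s t : E → V) (l : ℕ) (hl : Odd l)
    (H : ∀ A, Odd (cut s t A) → l ≤ cut s t A) (v : V) (hev : Even (cut s t {v}))
    (hpos : 0 < cut s t {v}) :
    ∃ e₁ ∈ star s t v, ∃ e₂ ∈ star s t v, e₁ ≠ e₂ ∧
      ∀ A, v ∉ A → oth s t v e₁ ∈ A → oth s t v e₂ ∈ A → cut s t A ≠ l := by
  classical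
  by_contra hcon
  push Not at hcon
  let N : Finset V → ℕ := fun A => ((star s t v).filter fun e => oth s t v e ∈ A).card
  have hhalf : ∀ A, v ∉ A → cut s t A = l → 2 * N A ≤ cut s t {v} := by
    intro A hA hc
    have h1 := cut_insert s t A v hA
    rw [btw_star s t v A hA] at h1
    have h2 : Odd (cut s t (insert v A)) := by
      obtain ⟨a, ha⟩ := hl
      obtain ⟨b, hb⟩ := hev
      rw [Nat.odd_iff]
      omega
    have := H _ h2
    simp only [N]
    omega
  have h2 : 1 < (star s t v).card := by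
    rw [card_star]
    obtain ⟨b, hb⟩ := hev
    omega
  obtain ⟨e₁, he₁, e₂, he₂, hne⟩ := one_lt_card.mp h2
  obtain ⟨A₀, hA₀, hA₁, -, hA₂⟩ := hcon e₁ he₁ e₂ he₂ hne
  obtain ⟨A, hA, hmax⟩ := exists_max_image
    ((univ : Finset (Finset V)).filter fun A => v ∉ A ∧ cut s t A = l) N
    ⟨A₀, mem_filter.mpr ⟨mem_univ _, hA₀, hA₂⟩⟩
  obtain ⟨hvA, hcA⟩ := (mem_filter.mp hA).2
  have hN1 : 0 < N A :=
    lt_of_lt_of_le (card_pos.mpr ⟨e₁, mem_filter.mpr ⟨he₁, hA₁⟩⟩)
      (hmax A₀ (mem_filter.mpr ⟨mem_univ _, hA₀, hA₂⟩))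
  obtain ⟨x, hx⟩ := card_pos.mp hN1
  obtain ⟨hx1, hx2⟩ := mem_filter.mp hx
  have hlt : N A < (star s t v).card := by
    have := hhalf A hvA hcA
    rw [card_star]
    omega
  obtain ⟨y, hy1, hy2⟩ := exists_mem_notMem_of_card_lt_card hlt
  have hy3 : oth s t v y ∉ A := fun h => hy2 (mem_filter.mpr ⟨hy1, h⟩)
  have hxy : x ≠ y := fun h => hy3 (h ▸ hx2)
  obtain ⟨B, hvB, hxB, hyB, hcB⟩ := hcon x hx1 y hy1 hxy
  obtain ⟨a, ha⟩ := hl
  rcases Nat.even_or_odd (cut s t (A ∩ B)) with hp | hp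
  · have h3 := cut_sdiff_sdiff s t A B
    have h4 := cut_sdiff_inter s t A B
    have h5 := cut_sdiff_inter s t B A
    rw [inter_comm B A] at h5
    obtain ⟨b, hb⟩ := hp
    have h6 := H (A \ B) (by rw [Nat.odd_iff]; omega)
    have h7 := H (B \ A) (by rw [Nat.odd_iff]; omega)
    have h8 : 1 ≤ btw s t (fun x => x ∈ A ∧ x ∈ B) (fun x => x ∉ A ∧ x ∉ B) := by
      refine le_trans (le_of_eq ?_) (single_le_sum (f := fun e =>
        if ((s e ∈ A ∧ s e ∈ B) ∧ (t e ∉ A ∧ t e ∉ B)) ∨ ((s e ∉ A ∧ s e ∉ B) ∧ (t e ∈ A ∧ t e ∈ B))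
        then 1 else 0) (fun e _ => Nat.zero_le _) (mem_univ x))
      have h9 := (mem_filter.mp hx1).2
      simp only [oth] at hx2 hxB
      by_cases h10 : s x = v
      · rw [if_pos h10] at hx2 hxB
        simp [h10, hx2, hxB, hvA, hvB]
      · rw [if_neg h10] at hx2 hxB
        have h11 : t x = v := by tauto
        simp [h11, hx2, hxB, hvA, hvB]
    omega
  · have h3 := cut_inter_union s t A B
    have h4 := H _ hp
    obtain ⟨b, hb⟩ := hp
    have h5 := H (A ∪ B) (by rw [Nat.odd_iff]; omega)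
    have h6 : cut s t (A ∪ B) = l := by omega
    have h7 := hmax (A ∪ B) (mem_filter.mpr ⟨mem_univ _, by simp [hvA, hvB], h6⟩)
    have h8 : N A < N (A ∪ B) := by
      refine card_lt_card ⟨fun e he => ?_, fun h => hy2 (h ?_)⟩
      · exact mem_filter.mpr ⟨(mem_filter.mp he).1, mem_union_left _ (mem_filter.mp he).2⟩
      · exact mem_filter.mpr ⟨hy1, mem_union_right _ hyB⟩
    omega

variable [DecidableEq E]

/-- Tails after splitting off the pair `e₁, e₂` at `v`. -/
def splS (s t : E → V) (v : V) (e₁ e₂ : E) (e : E) : V :=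
  if e = e₁ then oth s t v e₁ else if e = e₂ then v else s e

/-- Heads after splitting off the pair `e₁, e₂` at `v`. -/
def splT (s t : E → V) (v : V) (e₁ e₂ : E) (e : E) : V :=
  if e = e₁ then oth s t v e₂ else if e = e₂ then v else t e

lemma sum_two {M : Type} [AddCommMonoid M] (f : E → M) {e₁ e₂ : E} (h : e₁ ≠ e₂) :
    ∑ e, f e = f e₁ + f e₂ + ∑ e ∈ (univ.erase e₁).erase e₂, f e := by
  rw [add_assoc, add_sum_erase _ _ (mem_erase.mpr ⟨h.symm, mem_univ _⟩),
    add_sum_erase _ _ (mem_univ _)]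

lemma cut_spl (s t : E → V) (v : V) {e₁ e₂ : E} (h₁ : e₁ ∈ star s t v) (h₂ : e₂ ∈ star s t v)
    (h : e₁ ≠ e₂) (A : Finset V) (hA : v ∉ A) :
    cut (splS s t v e₁ e₂) (splT s t v e₁ e₂) A +
      (if oth s t v e₁ ∈ A ∧ oth s t v e₂ ∈ A then 2 else 0) = cut s t A := by
  simp only [cut]
  rw [sum_two _ h, sum_two _ h]
  have h3 : ∑ e ∈ (univ.erase e₁).erase e₂,
      (if (splS s t v e₁ e₂ e ∈ A ↔ splT s t v e₁ e₂ e ∈ A) then 0 else 1)
      = ∑ e ∈ (univ.erase e₁).erase e₂, (if (s e ∈ A ↔ t e ∈ A) then 0 else 1) := by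
    refine sum_congr rfl fun e he => ?_
    have h4 := ne_of_mem_erase he
    have h5 := ne_of_mem_erase (mem_of_mem_erase he)
    simp only [splS, splT, if_neg h4, if_neg h5]
  rw [h3]
  have h6 : ∀ e ∈ star s t v, (if (s e ∈ A ↔ t e ∈ A) then 0 else 1)
      = if oth s t v e ∈ A then 1 else 0 := by
    intro e he
    have h7 := (mem_filter.mp he).2
    simp only [oth]
    by_cases h8 : s e = v
    · by_cases h9 : t e ∈ A <;> simp [h8, h9, hA]
    · have h9 : t e = v := by tauto
      by_cases h10 : s e ∈ A <;> simp [h8, h9, h10, hA]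
  rw [h6 e₁ h₁, h6 e₂ h₂]
  simp only [splS, splT, if_true, if_neg h.symm]
  by_cases h7 : oth s t v e₁ ∈ A <;> by_cases h8 : oth s t v e₂ ∈ A <;> simp [h7, h8] <;> omega

lemma bd_spl (s t : E → V) (v : V) {e₁ e₂ : E} (h₁ : e₁ ∈ star s t v) (h₂ : e₂ ∈ star s t v)
    (h : e₁ ≠ e₂) (g : E → ℝ) (u : V) :
    bd s t (fun e => if e = e₁ then (if s e₁ = v then - g e₁ else g e₁) else
      if e = e₂ then (if s e₂ = v then g e₁ else - g e₁) else g e) u
      = bd (splS s t v e₁ e₂) (splT s t v e₁ e₂) g u := by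
  simp only [bd]
  rw [sum_two _ h, sum_two _ h]
  congr 1
  · have h3 := (mem_filter.mp h₁).2
    have h4 := (mem_filter.mp h₂).2
    simp only [if_true, if_neg h.symm, inc, splS, splT, oth, sub_self, mul_zero, add_zero]
    by_cases h5 : s e₁ = v <;> by_cases h6 : s e₂ = v
    · simp only [h5, h6, if_true]; ring
    · have h7 : t e₂ = v := by tauto
      simp only [h5, h6, h7, if_true, if_false]; ring
    · have h7 : t e₁ = v := by tauto
      simp only [h5, h6, h7, if_true, if_false]; ring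
    · have h7 : t e₁ = v := by tauto
      have h8 : t e₂ = v := by tauto
      simp only [h5, h6, h7, h8, if_false]; ring
  · refine sum_congr rfl fun e he => ?_
    have h4 := ne_of_mem_erase he
    have h5 := ne_of_mem_erase (mem_of_mem_erase he)
    simp only [inc, splS, splT, if_neg h4, if_neg h5]

end Pool.Agent.Lib.MP_a2b267_co
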