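import Pool.Agent.Lib.MP_a2b267_co.Scale
import Pool.Agent.Lib.MP_a2b267_co.Cut

set_option autoImplicit false

namespace Pool.Agent.Lib.MP_a2b267_co

open Finset

variable {V E : Type} [Fintype V] [DecidableEq V] [Fintype E] [DecidableEq E]

/-- Number of non-loop edges with both ends in `U`. -/
def ins (s t : E → V) (U : Finset V) : ℕ :=
  ∑ e, if s e ∈ U ∧ t e ∈ U ∧ s e ≠ t e then 1 else 0

omit [Fintype V] [DecidableEq E] in
lemma partition_ineq (s t : E → V) (l : ℝ) (U : Finset V)
    (hd : (U.card : ℝ) - 1 ≤ l * ins s t U)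
    (hmin : ∀ W, W ⊂ U → W.Nonempty → l * ins s t W ≤ (W.card : ℝ) - 1) (hl : 0 ≤ l)
    {α : Type} [DecidableEq α] (π : V → α) :
    ((U.image π).card : ℝ) - 1 ≤
      l * (∑ e, if s e ∈ U ∧ t e ∈ U ∧ π (s e) ≠ π (t e) then 1 else 0 : ℕ) := by
  by_cases h1 : (U.image π).card ≤ 1
  · have : ((U.image π).card : ℝ) ≤ 1 := by exact_mod_cast h1
    have h2 : (0 : ℝ) ≤ l * (∑ e, if s e ∈ U ∧ t e ∈ U ∧ π (s e) ≠ π (t e) then 1 else 0 : ℕ) :=
      mul_nonneg hl (Nat.cast_nonneg _)
    linarith
  have h2 : ∀ q ∈ U.image π, l * ins s t (U.filter fun x => π x = q)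
      ≤ ((U.filter fun x => π x = q).card : ℝ) - 1 := by
    intro q hq
    obtain ⟨x, hx, rfl⟩ := mem_image.mp hq
    refine hmin _ (filter_ssubset.mpr ?_) ⟨x, mem_filter.mpr ⟨hx, rfl⟩⟩
    by_contra hh
    push Not at hh
    refine h1 (card_le_one.mpr fun a ha b hb => ?_)
    obtain ⟨a', ha', rfl⟩ := mem_image.mp ha
    obtain ⟨b', hb', rfl⟩ := mem_image.mp hb
    rw [hh a' ha', hh b' hb']
  have h3 : ins s t U = (∑ e, if s e ∈ U ∧ t e ∈ U ∧ π (s e) ≠ π (t e) then 1 else 0) +
      ∑ q ∈ U.image π, ins s t (U.filter fun x => π x = q) := by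
    simp only [ins]
    rw [Finset.sum_comm, ← sum_add_distrib]
    refine sum_congr rfl fun e _ => ?_
    by_cases h4 : s e ∈ U
    · rw [sum_eq_single_of_mem (π (s e)) (mem_image_of_mem π h4)]
      · by_cases h5 : t e ∈ U <;> by_cases h6 : s e = t e <;> by_cases h7 : π (t e) = π (s e) <;>
          simp_all [eq_comm]
      · intro q _ hq
        simp [hq.symm]
    · simp [h4]
  have h4 : U.card = ∑ q ∈ U.image π, (U.filter fun x => π x = q).card :=
    card_eq_sum_card_image π U
  have h5 := sum_le_sum h2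
  rw [← mul_sum, sum_sub_distrib] at h5
  simp only [sum_const, nsmul_eq_mul, mul_one] at h5
  rw [h3, h4] at hd
  push_cast at hd h5 ⊢
  linarith

/-- A partition-connected vertex set absorbs every boundary. -/
lemma absorb_of_partition (s t : E → V) (l0 l : ℝ) (hl0 : 0 ≤ l0) (hl : l0 < l) (U : Finset V)
    (v₀ : V) (hv₀ : v₀ ∈ U)
    (hpart : ∀ (α : Type) [DecidableEq α] (π : V → α), ((U.image π).card : ℝ) - 1 ≤
      l0 * (∑ e, if s e ∈ U ∧ t e ∈ U ∧ π (s e) ≠ π (t e) then 1 else 0 : ℕ)) (β : V → ℝ) :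
    ∃ (z : E → ℤ) (f : E → ℝ), (∀ e, |f e| ≤ l) ∧ ∀ v ∈ U, v ≠ v₀ →
      ∑ e, (if s e ∈ U ∧ t e ∈ U then (f e + 2 * z e) * inc s t e v else 0) = β v := by
  classical
  let ι := {v : V // v ∈ U ∧ v ≠ v₀}
  let b : V → ι → ℝ := fun u i => if u = i.1 then 1 else 0
  let a : E → ι → ℝ := fun e => if s e ∈ U ∧ t e ∈ U then b (s e) - b (t e) else 0
  obtain ⟨z, f, hf, hz⟩ := exists_cover a (fun _ => l0) (fun _ => l) (fun _ => hl0) (fun _ => hl)
    (by
      intro S
      have h1 := hpart _ (fun u => S.mkQ (b u))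
      have h2 : (∑ e, if s e ∈ U ∧ t e ∈ U ∧ S.mkQ (b (s e)) ≠ S.mkQ (b (t e)) then 1 else 0 : ℕ)
          = (univ.filter fun e => a e ∉ S).card := by
        rw [card_filter]
        refine sum_congr rfl fun e _ => ?_
        by_cases h3 : s e ∈ U ∧ t e ∈ U
        · have h4 : a e ∈ S ↔ S.mkQ (b (s e)) = S.mkQ (b (t e)) := by
            simp only [a, if_pos h3, Submodule.mkQ_apply, Submodule.Quotient.eq]
          simp only [h3.1, h3.2, true_and, h4, ne_eq]
        · have h4 : a e ∈ S := by simp only [a, if_neg h3]; exact S.zero_mem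
          rw [if_neg (fun h => h3 ⟨h.1, h.2.1⟩), if_neg (fun h => h h4)]
      rw [h2] at h1
      simp only [sum_const, nsmul_eq_mul]
      have h5 : (0 : (ι → ℝ) ⧸ S) ∈ U.image fun u => S.mkQ (b u) := by
        refine mem_image.mpr ⟨v₀, hv₀, ?_⟩
        have : b v₀ = 0 := by
          funext i
          simp only [b, Pi.zero_apply]
          exact if_neg fun h => i.2.2 h.symm
        rw [this, map_zero]
      have h6 : Submodule.span ℝ (((U.image fun u => S.mkQ (b u)).erase 0 : Finset _) :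
          Set ((ι → ℝ) ⧸ S)) = ⊤ := by
        rw [eq_top_iff]
        rintro x -
        obtain ⟨y, rfl⟩ := S.mkQ_surjective x
        have h7 : y = ∑ i : ι, y i • b i.1 := by
          funext j
          simp only [b, Finset.sum_apply, Pi.smul_apply, smul_eq_mul]
          rw [sum_eq_single j]
          · simp
          · intro i _ hi
            rw [if_neg (fun h => hi (Subtype.ext h)), mul_zero]
          · simp
        rw [h7, map_sum]
        refine Submodule.sum_mem _ fun i _ => ?_
        rw [map_smul]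
        refine Submodule.smul_mem _ _ ?_
        by_cases h8 : S.mkQ (b i.1) = 0
        · rw [h8]; exact Submodule.zero_mem _
        · exact Submodule.subset_span (mem_coe.mpr (mem_erase.mpr
            ⟨h8, mem_image_of_mem _ i.2.1⟩))
      have h9 := finrank_span_finset_le_card (R := ℝ) ((U.image fun u => S.mkQ (b u)).erase 0)
      rw [Set.finrank, h6, finrank_top, card_erase_of_mem h5] at h9
      have h10 : 1 ≤ (U.image fun u => S.mkQ (b u)).card := card_pos.mpr ⟨_, h5⟩
      have h11 : (Module.finrank ℝ ((ι → ℝ) ⧸ S) : ℝ) + 1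
          ≤ (U.image fun u => S.mkQ (b u)).card := by
        exact_mod_cast (by omega)
      linarith)
    (fun i => β i.1)
  refine ⟨z, f, hf, fun v hv hv' => ?_⟩
  rw [← hz ⟨v, hv, hv'⟩]
  refine sum_congr rfl fun e _ => ?_
  by_cases h : s e ∈ U ∧ t e ∈ U
  · simp only [a, if_pos h, b, inc, Pi.sub_apply]
  · simp only [a, if_neg h, Pi.zero_apply, mul_zero]

/-- A uniformly dense vertex set absorbs every boundary. -/
lemma absorb (s t : E → V) (l0 l : ℝ) (hl0 : 0 ≤ l0) (hl : l0 < l) (U : Finset V) (v₀ : V)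
    (hv₀ : v₀ ∈ U) (hd : (U.card : ℝ) - 1 ≤ l0 * ins s t U)
    (hmin : ∀ W, W ⊂ U → W.Nonempty → l0 * ins s t W ≤ (W.card : ℝ) - 1) (β : V → ℝ) :
    ∃ (z : E → ℤ) (f : E → ℝ), (∀ e, |f e| ≤ l) ∧ ∀ v ∈ U, v ≠ v₀ →
      ∑ e, (if s e ∈ U ∧ t e ∈ U then (f e + 2 * z e) * inc s t e v else 0) = β v :=
  absorb_of_partition s t l0 l hl0 hl U v₀ hv₀
    (fun _ _ π => partition_ineq s t l0 U hd hmin hl0 π) β

/-- A circulation all of whose values are within `l` of an odd integer. -/
def Good (s t : E → V) (l : ℝ) : Prop :=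
  ∃ g : E → ℝ, (∀ e, ∃ k : ℤ, |g e - (2 * k + 1)| ≤ l) ∧ ∀ v, bd s t g v = 0

/-- Identify all vertices of `U` with `v₀`. -/
def ctr (U : Finset V) (v₀ : V) (x : V) : V := if x ∈ U then v₀ else x

lemma good_of_ctr (s t : E → V) (l0 l : ℝ) (hl0 : 0 ≤ l0) (hl : l0 < l) (U : Finset V) (v₀ : V)
    (hv₀ : v₀ ∈ U) (hd : (U.card : ℝ) - 1 ≤ l0 * ins s t U)
    (hmin : ∀ W, W ⊂ U → W.Nonempty → l0 * ins s t W ≤ (W.card : ℝ) - 1)
    (hg : Good (fun e => ctr U v₀ (s e)) (fun e => ctr U v₀ (t e)) l) : Good s t l := by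
  obtain ⟨g, hg1, hg2⟩ := hg
  obtain ⟨z, f, hf, hz⟩ := absorb s t l0 l hl0 hl U v₀ hv₀ hd hmin
    (fun v => ∑ e, (if s e ∈ U ∧ t e ∈ U then 1 else g e) * inc s t e v)
  let g' : E → ℝ := fun e => if s e ∈ U ∧ t e ∈ U then 1 - (f e + 2 * z e) else g e
  have h1 : ∀ v, v ≠ v₀ → bd s t g' v = 0 := by
    intro v hv
    by_cases hU : v ∈ U
    · have h2 := hz v hU hv
      rw [← sub_eq_zero, ← sum_sub_distrib] at h2
      rw [bd, ← neg_eq_zero, ← sum_neg_distrib, ← h2]
      refine sum_congr rfl fun e _ => ?_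
      simp only [g']
      split_ifs <;> ring
    · rw [← hg2 v]
      simp only [bd]
      have h3 : ∀ x, ctr U v₀ x = v ↔ x = v := by
        intro x
        simp only [ctr]
        split_ifs with h
        · exact ⟨fun h' => absurd h'.symm hv, fun h' => absurd (h' ▸ h) hU⟩
        · rfl
      refine sum_congr rfl fun e _ => ?_
      simp only [inc, h3, g']
      by_cases h4 : s e ∈ U ∧ t e ∈ U
      · have h5 : s e ≠ v := fun h => hU (h ▸ h4.1)
        have h6 : t e ≠ v := fun h => hU (h ▸ h4.2)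
        simp [h5, h6]
      · rw [if_neg h4]
  refine ⟨g', fun e => ?_, fun v => ?_⟩
  · by_cases h : s e ∈ U ∧ t e ∈ U
    · refine ⟨- z e, ?_⟩
      simp only [g', if_pos h]
      push_cast
      rw [show 1 - (f e + 2 * (z e : ℝ)) - (2 * -(z e : ℝ) + 1) = - f e by ring, abs_neg]
      exact hf e
    · simp only [g', if_neg h]
      exact hg1 e
  · by_cases hv : v = v₀
    · have h2 := sum_bd s t g'
      rw [sum_eq_single v₀ (fun u _ hu => h1 u hu) (by simp)] at h2
      rw [hv, h2]
    · exact h1 v hv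

omit [DecidableEq E] in
lemma cut_ctr (s t : E → V) (U : Finset V) (v₀ : V) (A : Finset V) :
    cut (fun e => ctr U v₀ (s e)) (fun e => ctr U v₀ (t e)) A
      = cut s t (univ.filter fun x => ctr U v₀ x ∈ A) := by
  simp only [cut, mem_filter, mem_univ, true_and]

omit [Fintype V] [DecidableEq E] in
lemma sum_cut_single (s t : E → V) (N : Finset V) (hN : ∀ v, v ∉ N → cut s t {v} = 0) :
    ∑ v ∈ N, cut s t {v} = 2 * ins s t N := by
  have h1 : ∀ e, s e ≠ t e → s e ∈ N ∧ t e ∈ N := by
    intro e he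
    constructor
    · by_contra h
      have := (sum_eq_zero_iff.mp (hN _ h)) e (mem_univ e)
      simp [he.symm] at this
    · by_contra h
      have := (sum_eq_zero_iff.mp (hN _ h)) e (mem_univ e)
      simp [he] at this
  simp only [cut, ins, mul_sum, mem_singleton]
  rw [Finset.sum_comm]
  refine sum_congr rfl fun e _ => ?_
  by_cases h : s e = t e
  · simp [h]
  · obtain ⟨h2, h3⟩ := h1 e h
    have h4 : ∀ v, (if (s e = v ↔ t e = v) then 0 else 1) =
        (if s e = v then 1 else 0) + (if t e = v then 1 else 0) := by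
      intro v
      by_cases h5 : s e = v <;> by_cases h6 : t e = v <;> simp_all
    simp only [h4, sum_add_distrib, sum_ite_eq, h2, h3, if_true, ne_eq, h, not_false_eq_true,
      and_self, mul_one]

theorem good_main (l m : ℕ) (hl : Odd l) (hm : 2 ≤ m) (r : ℝ)
    (hr : 2 * ((m : ℝ) - 1) / (l * m) < r) (n : ℕ) :
    ∀ s t : E → V, ins s t univ = n → (∀ A, Odd (cut s t A) → l ≤ cut s t A) →
      (univ.filter fun v => Odd (cut s t {v})).card ≤ m → Good s t r := by
  have hl1 : (0 : ℝ) < l := by exact_mod_cast hl.pos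
  have hm1 : (2 : ℝ) ≤ m := by exact_mod_cast hm
  set l0 : ℝ := 2 * ((m : ℝ) - 1) / (l * m) with hl0def
  have hl0 : 0 ≤ l0 := div_nonneg (by linarith) (by positivity)
  induction n using Nat.strong_induction_on with
  | _ n ih =>
  intro s t hn H hodd
  by_cases hev : ∃ v, Even (cut s t {v}) ∧ 0 < cut s t {v}
  · obtain ⟨v, hv1, hv2⟩ := hev
    obtain ⟨e₁, h₁, e₂, h₂, hne, hA⟩ := exists_split s t l hl H v hv1 hv2
    have hpar : ∀ A, Odd (cut (splS s t v e₁ e₂) (splT s t v e₁ e₂) A) →
        Odd (cut s t A) ∧ l ≤ cut (splS s t v e₁ e₂) (splT s t v e₁ e₂) A := by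
      have key : ∀ A, v ∉ A → Odd (cut (splS s t v e₁ e₂) (splT s t v e₁ e₂) A) →
          Odd (cut s t A) ∧ l ≤ cut (splS s t v e₁ e₂) (splT s t v e₁ e₂) A := by
        intro A hvA ho
        have h3 := cut_spl s t v h₁ h₂ hne A hvA
        obtain ⟨a, ha⟩ := ho
        obtain ⟨b, hb⟩ := hl
        split_ifs at h3 with h4
        · have h5 : Odd (cut s t A) := by rw [Nat.odd_iff]; omega
          have h6 := H A h5
          have h7 := hA A hvA h4.1 h4.2
          exact ⟨h5, by omega⟩
        · have h5 : Odd (cut s t A) := by rw [Nat.odd_iff]; omega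
          have h6 := H A h5
          exact ⟨h5, by omega⟩
      intro A ho
      by_cases hvA : v ∈ A
      · have := key Aᶜ (by simpa using hvA) (by rwa [cut_compl])
        rwa [cut_compl, cut_compl] at this
      · exact key A hvA ho
    have hlt : ins (splS s t v e₁ e₂) (splT s t v e₁ e₂) univ < n := by
      rw [← hn]
      simp only [ins, mem_univ, true_and]
      have h3 : ∀ e ∈ star s t v, s e ≠ t e := fun e he h =>
        (mem_filter.mp he).2 (by rw [h])
      refine sum_lt_sum (fun e _ => ?_) ⟨e₂, mem_univ _, ?_⟩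
      · by_cases h4 : e = e₁
        · rw [h4, if_pos (h3 e₁ h₁)]
          split_ifs <;> omega
        · by_cases h5 : e = e₂
          · simp [splS, splT, h5, hne.symm]
          · simp only [splS, splT, if_neg h4, if_neg h5, le_refl]
      · simp [splS, splT, hne.symm, h3 e₂ h₂]
    obtain ⟨g, hg1, hg2⟩ := ih _ hlt _ _ rfl (fun A ho => (hpar A ho).2)
      (le_trans (card_le_card fun u hu => mem_filter.mpr
        ⟨mem_univ _, (hpar _ (mem_filter.mp hu).2).1⟩) hodd)
    have hneg : ∃ k : ℤ, |- g e₁ - (2 * k + 1)| ≤ r := by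
      obtain ⟨k, hk⟩ := hg1 e₁
      refine ⟨- k - 1, ?_⟩
      push_cast
      rwa [show - g e₁ - (2 * (-(k : ℝ) - 1) + 1) = - (g e₁ - (2 * k + 1)) by ring, abs_neg]
    refine ⟨_, fun e => ?_, fun u => (bd_spl s t v h₁ h₂ hne g u).trans (hg2 u)⟩
    split_ifs
    exacts [hneg, hg1 _, hg1 _, hneg, hg1 _]
  · push Not at hev
    set N := univ.filter fun v => Odd (cut s t {v}) with hNdef
    have hN : ∀ v, v ∉ N → cut s t {v} = 0 := by
      intro v hv
      have h1 : ¬ Odd (cut s t {v}) := fun h => hv (mem_filter.mpr ⟨mem_univ _, h⟩)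
      exact Nat.le_zero.mp (hev v (Nat.not_odd_iff_even.mp h1))
    have hsum := sum_cut_single s t N hN
    have hlow : l * N.card ≤ 2 * ins s t N := by
      rw [← hsum, mul_comm, ← smul_eq_mul]
      exact card_nsmul_le_sum _ _ _ fun v hv => H _ (mem_filter.mp hv).2
    have hsmall : ∀ W : Finset V, W.card ≤ 1 → ins s t W = 0 := by
      intro W hW
      refine sum_eq_zero fun e _ => if_neg fun h => h.2.2 (card_le_one.mp hW _ h.1 _ h.2.1)
    by_cases hN2 : N.card ≤ 1
    · have h0 : ∀ v, cut s t {v} = 0 := by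
        intro v
        by_cases hv : v ∈ N
        · rw [hsmall N hN2, mul_zero] at hsum
          exact sum_eq_zero_iff.mp hsum v hv
        · exact hN v hv
      refine ⟨fun _ => 1, fun e => ⟨0, by simp; linarith⟩, fun v => ?_⟩
      refine sum_eq_zero fun e _ => ?_
      have h1 := (sum_eq_zero_iff.mp (h0 v)) e (mem_univ e)
      simp only [mem_singleton, ite_eq_left_iff, one_ne_zero, imp_false, not_not] at h1
      simp only [inc, h1, sub_self, mul_zero]
    · have hdN : (N.card : ℝ) - 1 ≤ l0 * ins s t N := by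
        have h1 : (l : ℝ) * N.card ≤ 2 * ins s t N := by exact_mod_cast hlow
        have h2 : (N.card : ℝ) ≤ m := by exact_mod_cast hodd
        rw [hl0def, div_mul_eq_mul_div, le_div_iff₀ (by positivity)]
        nlinarith [mul_le_mul_of_nonneg_left h1 (by linarith : (0 : ℝ) ≤ m - 1),
          mul_le_mul_of_nonneg_left h2 hl1.le]
      obtain ⟨U, hU, hUmin⟩ := exists_min_image
        (N.powerset.filter fun U => 2 ≤ U.card ∧ (U.card : ℝ) - 1 ≤ l0 * ins s t U) card
        ⟨N, mem_filter.mpr ⟨mem_powerset_self _, by omega, hdN⟩⟩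
      obtain ⟨hUN, hU2, hUd⟩ := mem_filter.mp hU
      rw [mem_powerset] at hUN
      have hmin : ∀ W, W ⊂ U → W.Nonempty → l0 * ins s t W ≤ (W.card : ℝ) - 1 := by
        intro W hW hW'
        by_cases h1 : W.card ≤ 1
        · have h2 : (1 : ℝ) ≤ W.card := by exact_mod_cast card_pos.mpr hW'
          rw [hsmall W h1]
          simp only [Nat.cast_zero, mul_zero]
          linarith
        · by_contra h2
          have h3 := hUmin W (mem_filter.mpr ⟨mem_powerset.mpr (hW.subset.trans hUN), by omega,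
            (not_le.mp h2).le⟩)
          exact absurd (card_lt_card hW) (by omega)
      obtain ⟨v₀, hv₀⟩ : U.Nonempty := card_pos.mp (by omega)
      refine good_of_ctr s t l0 r hl0 hr U v₀ hv₀ hUd hmin (ih _ ?_ _ _ rfl ?_ ?_)
      · rw [← hn]
        have h1 : ins s t U ≠ 0 := by
          intro h
          have h2 : (2 : ℝ) ≤ U.card := by exact_mod_cast hU2
          rw [h] at hUd
          simp only [Nat.cast_zero, mul_zero] at hUd
          linarith
        obtain ⟨e, -, he⟩ := exists_ne_zero_of_sum_ne_zero h1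
        have h2 : s e ∈ U ∧ t e ∈ U ∧ s e ≠ t e := by
          by_contra h; exact he (if_neg h)
        simp only [ins, mem_univ, true_and]
        refine sum_lt_sum (fun x _ => ?_) ⟨e, mem_univ _, ?_⟩
        · by_cases h3 : s x = t x
          · simp [h3]
          · rw [if_pos h3]
            split_ifs <;> omega
        · simp [ctr, h2.1, h2.2.1, h2.2.2]
      · intro A hA
        rw [cut_ctr] at hA ⊢
        exact H _ hA
      · refine le_trans (card_le_card fun u hu => ?_) hodd
        by_cases h1 : u ∈ U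
        · exact hUN h1
        · have h2 := (mem_filter.mp hu).2
          rw [cut_ctr] at h2
          have h3 : (univ.filter fun x => ctr U v₀ x ∈ ({u} : Finset V)) = {u} := by
            ext x
            simp only [mem_filter, mem_univ, true_and, mem_singleton, ctr]
            split_ifs with h
            · exact ⟨fun h' => absurd (h' ▸ hv₀) h1, fun h' => absurd (h' ▸ h) h1⟩
            · rfl
          rw [h3] at h2
          exact mem_filter.mpr ⟨mem_univ _, h2⟩

/-- The main bound, in terms of `cut` and `bd`. -/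
theorem flow_main (s t : E → V) (l m : ℕ) (hl : Odd l) (hl3 : 3 ≤ l) (hm : 2 ≤ m)
    (H : ∀ A, Odd (cut s t A) → l ≤ cut s t A)
    (hodd : (univ.filter fun v => Odd (cut s t {v})).card ≤ m) :
    ∃ f : E → ℝ, (∀ e, 1 ≤ |f e| ∧
      |f e| ≤ (((l : ℝ) + 2) * m - 2) / (((l : ℝ) - 2) * m + 2)) ∧ ∀ v, bd s t f v = 0 := by
  have hl1 : (3 : ℝ) ≤ l := by exact_mod_cast hl3
  have hm1 : (2 : ℝ) ≤ m := by exact_mod_cast hm
  have hlm : (0 : ℝ) < l * m := by positivity
  have hlt : 2 * ((m : ℝ) - 1) / (l * m) < 1 := by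
    rw [div_lt_one hlm]; nlinarith
  obtain ⟨f, hf1, hf2⟩ := exists_limit s t _ hlt fun l' h1 h2 => by
    obtain ⟨g, hg1, hg2⟩ := good_main l m hl hm l' h1 _ s t rfl H hodd
    exact exists_bounded s t l' h2 g hg1 hg2
  set l0 : ℝ := 2 * ((m : ℝ) - 1) / (l * m) with hl0def
  have hpos : 0 < 1 - l0 := by linarith
  have hden : (0 : ℝ) < ((l : ℝ) - 2) * m + 2 := by nlinarith
  have heq : (((l : ℝ) + 2) * m - 2) / (((l : ℝ) - 2) * m + 2) = (1 + l0) / (1 - l0) := by
    rw [div_eq_div_iff hden.ne' hpos.ne', hl0def]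
    field_simp
    ring
  refine ⟨fun e => f e / (1 - l0), fun e => ?_, fun v => ?_⟩
  · dsimp only
    rw [abs_div, abs_of_pos hpos, heq, le_div_iff₀ hpos, div_le_div_iff_of_pos_right hpos, one_mul]
    exact hf1 e
  · have := hf2 v
    simp only [bd] at this ⊢
    simp only [div_mul_eq_mul_div, ← sum_div, this, zero_div]

end Pool.Agent.Lib.MP_a2b267_co
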