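import Mathlib

set_option autoImplicit false

namespace Pool.Agent.Lib.MP_a2b267_co

open Finset

variable {V E : Type} [Fintype V] [DecidableEq V] [Fintype E]

/-- Signed incidence of the edge `e` at the vertex `v`. -/
def inc (s t : E → V) (e : E) (v : V) : ℝ :=
  (if s e = v then 1 else 0) - (if t e = v then 1 else 0)

/-- Net outflow of `f` at `v`. -/
def bd (s t : E → V) (f : E → ℝ) (v : V) : ℝ := ∑ e, f e * inc s t e v

lemma sum_bd (s t : E → V) (f : E → ℝ) : ∑ v, bd s t f v = 0 := by
  simp only [bd]
  rw [Finset.sum_comm]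
  refine Finset.sum_eq_zero fun e _ => ?_
  rw [← Finset.mul_sum]
  simp [inc, Finset.sum_sub_distrib]

/-- Integrality of flows: a fractional vector in the unit cube with integral boundary can be
rounded to a vertex of the cube with the same boundary. -/
lemma exists_round (s t : E → V) (h : E → ℝ) (h0 : ∀ e, 0 ≤ h e) (h1 : ∀ e, h e ≤ 1)
    (hint : ∀ v, ∃ k : ℤ, bd s t h v = k) :
    ∃ χ : E → ℝ, (∀ e, χ e = 0 ∨ χ e = 1) ∧ ∀ v, bd s t χ v = bd s t h v := by
  classical
  let o : (E → ℝ) → V → ℝ := fun g v =>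
    ∑ e, ((if s e = v then g e else 0) + (if t e = v then 1 - g e else 0))
  have ho : ∀ g v, o g v = bd s t g v + ((univ.filter fun e => t e = v).card : ℝ) := by
    intro g v
    simp only [o, bd, inc, card_filter, Nat.cast_sum, ← sum_add_distrib]
    refine sum_congr rfl fun e _ => ?_
    split_ifs <;> push_cast <;> ring
  have hnn : ∀ e v, 0 ≤ (if s e = v then h e else 0) + (if t e = v then 1 - h e else 0) := by
    intro e v
    have := h0 e
    have := h1 e
    split_ifs <;> linarith
  have hn : ∀ v, ∃ n : ℕ, o h v = n := by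
    intro v
    obtain ⟨k, hk⟩ := hint v
    have h2 : 0 ≤ o h v := sum_nonneg fun e _ => hnn e v
    have h3 : o h v = ((k + ((univ.filter fun e => t e = v).card : ℤ) : ℤ) : ℝ) := by
      rw [ho, hk]; push_cast; rfl
    have h4 : 0 ≤ k + ((univ.filter fun e => t e = v).card : ℤ) := by
      rw [h3] at h2; exact_mod_cast h2
    obtain ⟨n, hn⟩ := Int.eq_ofNat_of_zero_le h4
    exact ⟨n, by rw [h3, hn]; simp⟩
  choose n hn using hn
  have hcount : ∀ P : Finset V,
      (univ.filter fun p : (Σ v, Fin (n v)) => p.1 ∈ P).card = ∑ v ∈ P, n v := by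
    intro P
    have : (univ.filter fun p : (Σ v, Fin (n v)) => p.1 ∈ P) = P.sigma fun _ => univ := by
      ext p; simp
    rw [this, card_sigma]
    simp
  have hsum : ∀ P : Finset V, ((∑ v ∈ P, n v : ℕ) : ℝ) =
      ∑ e, ((if s e ∈ P then h e else 0) + (if t e ∈ P then 1 - h e else 0)) := by
    intro P
    push_cast
    simp only [← hn, o]
    rw [Finset.sum_comm]
    refine sum_congr rfl fun e _ => ?_
    rw [sum_add_distrib, sum_ite_eq, sum_ite_eq]
  let T : E → Finset (Σ v, Fin (n v)) := fun e => univ.filter fun p => p.1 = s e ∨ p.1 = t e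
  obtain ⟨φ, hφ, hφT⟩ := (Finset.all_card_le_biUnion_card_iff_exists_injective T).mp (by
    intro F
    have h2 : F.biUnion T =
        univ.filter fun p : (Σ v, Fin (n v)) => p.1 ∈ F.image s ∪ F.image t := by
      ext p
      simp only [T, mem_biUnion, mem_filter, mem_univ, true_and, mem_union, mem_image]
      constructor
      · rintro ⟨e, he, h | h⟩
        · exact Or.inl ⟨e, he, h.symm⟩
        · exact Or.inr ⟨e, he, h.symm⟩
      · rintro (⟨e, he, h⟩ | ⟨e, he, h⟩)
        · exact ⟨e, he, Or.inl h.symm⟩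
        · exact ⟨e, he, Or.inr h.symm⟩
    rw [h2, hcount]
    have h3 := hsum (F.image s ∪ F.image t)
    have h4 : (F.card : ℝ) ≤ ∑ e, ((if s e ∈ F.image s ∪ F.image t then h e else 0) +
        (if t e ∈ F.image s ∪ F.image t then 1 - h e else 0)) := by
      rw [card_eq_sum_ones]
      push_cast
      refine le_trans (le_of_eq (sum_congr rfl fun e he => ?_))
        (sum_le_sum_of_subset_of_nonneg (subset_univ F) fun e _ _ => ?_)
      · rw [if_pos (mem_union_left _ (mem_image_of_mem s he)),
          if_pos (mem_union_right _ (mem_image_of_mem t he))]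
        ring
      · have := h0 e
        have := h1 e
        split_ifs <;> linarith
    rw [← h3] at h4
    exact_mod_cast h4)
  have hcard : Fintype.card E = Fintype.card (Σ v, Fin (n v)) := by
    have h2 := hcount univ
    have h3 := hsum univ
    simp only [mem_univ, filter_true, card_univ, if_true, add_sub_cancel, sum_const,
      nsmul_eq_mul, mul_one] at h2 h3
    rw [h2]
    exact_mod_cast h3.symm
  have hbij : Function.Bijective φ := (Fintype.bijective_iff_injective_and_card φ).mpr ⟨hφ, hcard⟩
  refine ⟨fun e => if (φ e).1 = s e then 1 else 0, fun e => ?_, fun v => ?_⟩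
  · dsimp only
    split_ifs <;> simp
  · have h2 : o (fun e => if (φ e).1 = s e then 1 else 0) v = o h v := by
      rw [hn]
      have h3 : (n v : ℝ) = ∑ p : (Σ v, Fin (n v)), if p.1 = v then 1 else 0 := by
        have := hcount {v}
        simp only [mem_singleton, sum_singleton, card_filter] at this
        rw [← this]
        push_cast
        rfl
      rw [h3, ← hbij.sum_comp]
      refine sum_congr rfl fun e _ => ?_
      have h4 := (mem_filter.mp (hφT e)).2
      by_cases h5 : (φ e).1 = s e
      · simp [h5]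
      · have h6 := h4.resolve_left h5
        dsimp only
        rw [if_neg h5, h6]
        simp
    rw [ho, ho] at h2
    linarith

/-- From a circulation whose values are near odd integers to a circulation with values near
`1` or `-1`. -/
lemma exists_bounded (s t : E → V) (l : ℝ) (hl : l ≤ 1) (g : E → ℝ)
    (hg : ∀ e, ∃ k : ℤ, |g e - (2 * k + 1)| ≤ l) (hb : ∀ v, bd s t g v = 0) :
    ∃ f : E → ℝ, (∀ e, 1 - l ≤ |f e| ∧ |f e| ≤ 1 + l) ∧ ∀ v, bd s t f v = 0 := by
  classical
  choose k hk using hg
  have hk' := fun e => abs_le.mp (hk e)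
  have hlin : ∀ v, bd s t (fun e => g e / 2 - k e) v = - ∑ e, (k e : ℝ) * inc s t e v := by
    intro v
    have := hb v
    simp only [bd] at this ⊢
    simp only [sub_mul, sum_sub_distrib, div_mul_eq_mul_div, ← sum_div, this]
    simp
  obtain ⟨χ, hχ, hχb⟩ := exists_round s t (fun e => g e / 2 - k e)
    (fun e => by linarith [(hk' e).1]) (fun e => by linarith [(hk' e).2]) (by
      intro v
      refine ⟨- ∑ e, k e * ((if s e = v then 1 else 0) - (if t e = v then 1 else 0)), ?_⟩
      rw [hlin]
      push_cast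
      simp only [inc])
  refine ⟨fun e => 2 * ((g e / 2 - k e) - χ e), fun e => ?_, fun v => ?_⟩
  · obtain ⟨h1, h2⟩ := hk' e
    dsimp only
    rcases hχ e with h | h
    · rw [h, abs_of_nonneg (by linarith)]
      constructor <;> linarith
    · rw [h, abs_of_nonpos (by linarith)]
      constructor <;> linarith
  · have := hχb v
    simp only [bd] at this ⊢
    have h3 : ∀ e, 2 * ((g e / 2 - k e) - χ e) * inc s t e v
        = 2 * ((g e / 2 - k e) * inc s t e v) - 2 * (χ e * inc s t e v) := fun e => by ring
    simp only [h3, sum_sub_distrib, ← mul_sum, this, sub_self]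

omit [Fintype V] in
/-- Closing up: bounds valid for every larger tolerance are valid for the limit tolerance. -/
lemma exists_limit (s t : E → V) (l : ℝ) (hl : l < 1)
    (H : ∀ l', l < l' → l' ≤ 1 →
      ∃ f : E → ℝ, (∀ e, 1 - l' ≤ |f e| ∧ |f e| ≤ 1 + l') ∧ ∀ v, bd s t f v = 0) :
    ∃ f : E → ℝ, (∀ e, 1 - l ≤ |f e| ∧ |f e| ≤ 1 + l) ∧ ∀ v, bd s t f v = 0 := by
  let r : ℕ → ℝ := fun n => l + (1 - l) / (n + 1)
  have hr1 : ∀ n, l < r n := fun n => lt_add_of_pos_right _ (div_pos (by linarith) (by positivity))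
  have hr2 : ∀ n, r n ≤ 1 := by
    intro n
    have : (1 - l) / (n + 1) ≤ 1 - l :=
      div_le_self (by linarith) (by linarith [(Nat.cast_nonneg n : (0 : ℝ) ≤ n)])
    simp only [r]; linarith
  have hr3 : ∀ n, r (n + 1) ≤ r n := by
    intro n
    simp only [r]
    have : (1 - l) / ((n + 1 : ℕ) + 1) ≤ (1 - l) / (n + 1) :=
      div_le_div_of_nonneg_left (by linarith) (by positivity) (by push_cast; linarith)
    linarith
  let K : ℕ → Set (E → ℝ) := fun n =>
    {f | (∀ e, 1 - r n ≤ |f e| ∧ |f e| ≤ 1 + r n) ∧ ∀ v, bd s t f v = 0}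
  have hcl : ∀ n, IsClosed (K n) := by
    intro n
    simp only [K, Set.ofPred_and, Set.ofPred_forall]
    refine IsClosed.inter (isClosed_iInter fun e => IsClosed.inter ?_ ?_)
      (isClosed_iInter fun v => ?_)
    · exact isClosed_le continuous_const (by fun_prop)
    · exact isClosed_le (by fun_prop) continuous_const
    · exact isClosed_eq (by unfold bd; fun_prop) continuous_const
  have hco : IsCompact (K 0) := by
    refine (isCompact_Icc (a := fun _ : E => (-2 : ℝ)) (b := fun _ => 2)).of_isClosed_subset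
      (hcl 0) fun f hf => ⟨fun e => ?_, fun e => ?_⟩
    · have := abs_le.mp (hf.1 e).2
      linarith [hr2 0]
    · have := abs_le.mp (hf.1 e).2
      linarith [hr2 0]
  obtain ⟨f, hf⟩ := IsCompact.nonempty_iInter_of_sequence_nonempty_isCompact_isClosed K
    (fun n f hf => ⟨fun e => ⟨by linarith [(hf.1 e).1, hr3 n], by linarith [(hf.1 e).2, hr3 n]⟩,
      hf.2⟩)
    (fun n => H _ (hr1 n) (hr2 n)) hco hcl
  rw [Set.mem_iInter] at hf
  have hlim : ∀ x : ℝ, (∀ n, x ≤ r n) → x ≤ l := by
    intro x hx
    have h1 : Filter.Tendsto r Filter.atTop (nhds (l + (1 - l) * 0)) := by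
      simp only [r, div_eq_mul_one_div (1 - l)]
      exact (tendsto_one_div_add_atTop_nhds_zero_nat.const_mul _).const_add _
    simp only [mul_zero, add_zero] at h1
    exact ge_of_tendsto' h1 hx
  refine ⟨f, fun e => ⟨?_, ?_⟩, (hf 0).2⟩
  · have := hlim (1 - |f e|) fun n => by linarith [((hf n).1 e).1]
    linarith
  · have := hlim (|f e| - 1) fun n => by linarith [((hf n).1 e).2]
    linarith

end Pool.Agent.Lib.MP_a2b267_co
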