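import Mathlib

set_option autoImplicit false

namespace Pool.Agent.Lib.MP_a2b267_co

open Matrix Finset

variable {ι E : Type} [Fintype ι] [DecidableEq ι] [Fintype E] [DecidableEq E]

/-- The weighted Gram matrix of the vectors `a e`, `e ∈ F`. -/
noncomputable def lap (a : E → ι → ℝ) (c : E → ℝ) (F : Finset E) : Matrix ι ι ℝ :=
  ∑ e ∈ F, c e • vecMulVec (a e) (a e)

lemma det_add_rankOne {M : Matrix ι ι ℝ} (hM : IsUnit M.det) (x : ι → ℝ) (t : ℝ) :
    (M + t • vecMulVec x x).det = M.det * (1 + t * (x ⬝ᵥ (M⁻¹ *ᵥ x))) := by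
  have h1 : t • vecMulVec x x = replicateCol Unit (t • x) * replicateRow Unit x := by
    rw [← vecMulVec_eq Unit]
    ext i j
    simp [vecMulVec_apply, mul_assoc]
  rw [h1, det_add_replicateCol_mul_replicateRow hM, det_unique (n := Unit)]
  congr 1
  simp only [Matrix.add_apply, Matrix.one_apply_eq, Matrix.mul_apply, replicateRow_apply,
    replicateCol_apply, Pi.smul_apply, smul_eq_mul, dotProduct, mulVec, Finset.sum_mul,
    Finset.mul_sum]
  congr 1
  rw [Finset.sum_comm]
  refine Finset.sum_congr rfl fun i _ => Finset.sum_congr rfl fun j _ => by ring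

omit [DecidableEq ι] [Fintype E] [DecidableEq E] in
lemma lap_mulVec (a : E → ι → ℝ) (c : E → ℝ) (F : Finset E) (y : ι → ℝ) :
    lap a c F *ᵥ y = ∑ e ∈ F, (c e * (a e ⬝ᵥ y)) • a e := by
  ext i
  simp only [lap, mulVec, dotProduct, Matrix.sum_apply, Matrix.smul_apply, vecMulVec_apply,
    smul_eq_mul, Finset.sum_apply, Pi.smul_apply, Finset.sum_mul, Finset.mul_sum]
  rw [Finset.sum_comm]
  refine Finset.sum_congr rfl fun e _ => Finset.sum_congr rfl fun j _ => by ring

omit [DecidableEq ι] [Fintype E] [DecidableEq E] in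
lemma rankOne_psd (x : ι → ℝ) {t : ℝ} (ht : 0 ≤ t) : (t • vecMulVec x x).PosSemidef := by
  have h := posSemidef_vecMulVec_self_star x
  rw [star_trivial] at h
  exact h.smul ht

omit [Fintype E] in
lemma det_le_add_lap {M : Matrix ι ι ℝ} (hM : M.PosDef) (a : E → ι → ℝ) (c : E → ℝ)
    (hc : ∀ e, 0 ≤ c e) (F : Finset E) :
    (M + lap a c F).PosDef ∧ M.det ≤ (M + lap a c F).det := by
  induction F using Finset.induction_on with
  | empty => simpa [lap] using hM
  | insert e F he ih =>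
    obtain ⟨h1, h2⟩ := ih
    have h3 : M + lap a c (insert e F) = (M + lap a c F) + c e • vecMulVec (a e) (a e) := by
      simp only [lap, Finset.sum_insert he]; abel
    rw [h3]
    refine ⟨h1.add_posSemidef (rankOne_psd _ (hc e)), ?_⟩
    rw [det_add_rankOne (isUnit_iff_ne_zero.mpr h1.det_pos.ne')]
    have h4 : 0 ≤ a e ⬝ᵥ ((M + lap a c F)⁻¹ *ᵥ a e) := by
      have := h1.inv.posSemidef.dotProduct_mulVec_nonneg (a e)
      rwa [star_trivial] at this
    have h5 := mul_nonneg (hc e) h4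
    have h6 := h1.det_pos
    nlinarith

omit [Fintype E] [DecidableEq E] in
lemma basis_lap (a : E → ι → ℝ) (T : Finset E) (hT : LinearIndepOn ℝ a (T : Set E))
    (hcard : T.card = Fintype.card ι) (c : E → ℝ) (hc : ∀ e, 0 < c e) :
    (lap a c T).PosDef ∧ (lap a c T).det = (lap a (fun _ => 1) T).det * ∏ e ∈ T, c e := by
  have hcard' : Fintype.card ι = Fintype.card T := by simp [hcard]
  let φ : ι ≃ T := Fintype.equivOfCardEq hcard'
  let B : Matrix ι ι ℝ := Matrix.of fun i j => a (φ i) j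
  have hB : IsUnit B := by
    rw [← Matrix.linearIndependent_rows_iff_isUnit]
    exact (hT.comp φ φ.injective)
  have key : ∀ c : E → ℝ, lap a c T = Bᵀ * diagonal (fun i => c (φ i)) * B := by
    intro c
    ext i j
    simp only [lap, Matrix.sum_apply, Matrix.smul_apply, vecMulVec_apply, smul_eq_mul]
    rw [Matrix.mul_apply]
    simp only [Matrix.mul_diagonal, transpose_apply, B, Matrix.of_apply]
    rw [← Finset.sum_coe_sort T, ← φ.sum_comp]
    refine Finset.sum_congr rfl fun k _ => by ring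
  constructor
  · rw [key]
    have hd : (diagonal (fun i => c (φ i))).PosDef := PosDef.diagonal fun i => hc _
    have := hd.conjTranspose_mul_mul_same (B := B) (mulVec_injective_iff_isUnit.mpr hB)
    rwa [conjTranspose_eq_transpose_of_trivial] at this
  · rw [key, key]
    simp only [det_mul, det_transpose, det_diagonal, Finset.prod_const_one, mul_one]
    rw [← Finset.prod_coe_sort T, ← φ.prod_comp]
    ring

lemma exists_pos_lb {α : Type} [Finite α] (g : α → ℝ) :
    ∃ δ : ℝ, 0 < δ ∧ ∀ x, 0 < g x → δ ≤ g x := by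
  classical
  have := Fintype.ofFinite α
  by_cases h : (univ.filter fun x => 0 < g x).Nonempty
  · obtain ⟨x, hx, hmin⟩ := Finset.exists_min_image _ g h
    exact ⟨g x, (mem_filter.mp hx).2, fun y hy => hmin y (mem_filter.mpr ⟨mem_univ _, hy⟩)⟩
  · exact ⟨1, one_pos, fun y hy => absurd ⟨y, mem_filter.mpr ⟨mem_univ _, hy⟩⟩ h⟩

omit [DecidableEq ι] in
open Classical in
/-- Greedy choice of a light basis. -/
lemma exists_light_basis (a : E → ι → ℝ) (w0 : E → ℝ) (h0 : ∀ e, 0 ≤ w0 e)
    (H : ∀ S : Submodule ℝ (ι → ℝ),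
      (Module.finrank ℝ ((ι → ℝ) ⧸ S) : ℝ) ≤ ∑ e ∈ univ.filter (fun e => a e ∉ S), w0 e)
    (η : E → ℝ) (hη : ∀ e, 0 ≤ η e) :
    ∃ T : Finset E, LinearIndepOn ℝ a (T : Set E) ∧ T.card = Fintype.card ι ∧
      ∑ e ∈ T, η e ≤ ∑ e, w0 e * η e := by
  have hκ : ∀ F T : Finset E, LinearIndepOn ℝ a (T : Set E) →
      (∀ e ∈ F, a e ∈ Submodule.span ℝ (a '' (T : Set E))) →
      (Fintype.card ι : ℝ) - T.card ≤ ∑ e ∈ Fᶜ, w0 e ∧ T.card ≤ Fintype.card ι := by
    intro F T hT hF
    have h1 := H (Submodule.span ℝ (a '' (T : Set E)))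
    have h2 := Submodule.finrank_quotient_add_finrank (Submodule.span ℝ (a '' (T : Set E)))
    have h3 : Module.finrank ℝ (Submodule.span ℝ (a '' (T : Set E))) = T.card := by
      rw [Set.image_eq_range, finrank_span_eq_card hT]
      simp
    rw [h3, Module.finrank_fintype_fun_eq_card] at h2
    have h4 : ∑ e ∈ univ.filter (fun e => a e ∉ Submodule.span ℝ (a '' (T : Set E))), w0 e
        ≤ ∑ e ∈ Fᶜ, w0 e := by
      refine Finset.sum_le_sum_of_subset_of_nonneg ?_ fun e _ _ => h0 e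
      intro e he
      rw [mem_compl]
      exact fun h => (mem_filter.mp he).2 (hF e h)
    refine ⟨?_, by omega⟩
    have h5 : (Fintype.card ι : ℝ) = Module.finrank ℝ ((ι → ℝ) ⧸
        Submodule.span ℝ (a '' (T : Set E))) + T.card := by exact_mod_cast h2.symm
    linarith
  have main : ∀ F : Finset E, ∃ T : Finset E, T ⊆ F ∧ LinearIndepOn ℝ a (T : Set E) ∧
      (∀ e ∈ F, a e ∈ Submodule.span ℝ (a '' (T : Set E))) ∧
      ∀ M : ℝ, 0 ≤ M → (∀ e ∈ F, η e ≤ M) →
        ∑ e ∈ T, η e - ∑ e ∈ F, w0 e * η e ≤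
          M * (∑ e ∈ Fᶜ, w0 e - ((Fintype.card ι : ℝ) - T.card)) := by
    intro F
    induction F using Finset.induction_on_max_value η with
    | empty =>
      refine ⟨∅, Subset.rfl, by simp, by simp, fun M hM _ => ?_⟩
      have := (hκ ∅ ∅ (by simp) (by simp)).1
      simp only [sum_empty, sub_zero]
      exact mul_nonneg hM (by linarith)
    | insert x F hx hmax ih =>
      obtain ⟨T, hTF, hT, hsp, hM⟩ := ih
      have hx1 := hM (η x) (hη x) hmax
      have hc : ∑ e ∈ Fᶜ, w0 e = w0 x + ∑ e ∈ (insert x F)ᶜ, w0 e := by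
        rw [compl_insert, Finset.add_sum_erase _ _ (mem_compl.mpr hx)]
      by_cases hin : a x ∈ Submodule.span ℝ (a '' (T : Set E))
      · have hsp' : ∀ e ∈ insert x F, a e ∈ Submodule.span ℝ (a '' (T : Set E)) := by
          intro e he
          rcases mem_insert.mp he with rfl | he
          · exact hin
          · exact hsp e he
        refine ⟨T, hTF.trans (subset_insert _ _), hT, hsp', fun M hM0 hMe => ?_⟩
        have h1 := (hκ _ _ hT hsp').1
        have h2 := hMe x (mem_insert_self _ _)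
        rw [sum_insert hx]
        rw [hc] at hx1
        nlinarith [mul_nonneg (sub_nonneg.mpr h2) (sub_nonneg.mpr h1)]
      · have hxT : x ∉ T := fun h => hx (hTF h)
        have hT' : LinearIndepOn ℝ a ((insert x T : Finset E) : Set E) := by
          rw [coe_insert]
          exact hT.insert hin
        have hsp' : ∀ e ∈ insert x F,
            a e ∈ Submodule.span ℝ (a '' ((insert x T : Finset E) : Set E)) := by
          intro e he
          rcases mem_insert.mp he with rfl | he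
          · exact Submodule.subset_span ⟨e, by simp, rfl⟩
          · exact Submodule.span_mono (Set.image_mono (by simp)) (hsp e he)
        refine ⟨insert x T, insert_subset_insert _ hTF, hT', hsp', fun M hM0 hMe => ?_⟩
        have h1 := (hκ _ _ hT' hsp').1
        have h2 := hMe x (mem_insert_self _ _)
        rw [sum_insert hx, sum_insert hxT]
        rw [card_insert_of_notMem hxT] at h1 ⊢
        push_cast at h1 ⊢
        rw [hc] at hx1
        nlinarith [mul_nonneg (sub_nonneg.mpr h2) (sub_nonneg.mpr h1)]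
  obtain ⟨T, -, hT, hsp, hM⟩ := main univ
  obtain ⟨h1, h2⟩ := hκ _ _ hT hsp
  simp only [compl_univ, sum_empty] at h1 hM
  have h3 : T.card = Fintype.card ι := by
    have : (Fintype.card ι : ℝ) ≤ T.card := by linarith
    have : Fintype.card ι ≤ T.card := by exact_mod_cast this
    omega
  refine ⟨T, hT, h3, ?_⟩
  have h4 := hM (∑ e, η e) (sum_nonneg fun e _ => hη e)
    (fun e _ => single_le_sum (fun e _ => hη e) (mem_univ e))
  rw [h3] at h4
  simp only [sub_self, mul_zero] at h4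
  linarith

open Classical in
/-- Scaling of the vectors so that all leverage scores are at most the given weights. -/
theorem exists_scaling (a : E → ι → ℝ) (w0 w : E → ℝ) (h0 : ∀ e, 0 ≤ w0 e) (hw : ∀ e, w0 e < w e)
    (H : ∀ S : Submodule ℝ (ι → ℝ),
      (Module.finrank ℝ ((ι → ℝ) ⧸ S) : ℝ) ≤ ∑ e ∈ univ.filter (fun e => a e ∉ S), w0 e) :
    ∃ c : E → ℝ, (∀ e, 0 < c e ∧ c e ≤ 1) ∧ (lap a c univ).PosDef ∧
      ∀ e, c e * (a e ⬝ᵥ ((lap a c univ)⁻¹ *ᵥ a e)) ≤ w e := by
  obtain ⟨δ, hδ, hδ'⟩ := exists_pos_lb (fun T : Finset E => (lap a (fun _ => 1) T).det)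
  have hlow : ∀ η : E → ℝ, (∀ e, 0 ≤ η e) →
      (lap a (fun e => Real.exp (-η e)) univ).PosDef ∧
      Real.log δ - ∑ e, w0 e * η e ≤ Real.log (lap a (fun e => Real.exp (-η e)) univ).det := by
    intro η hη
    obtain ⟨T, hT, hcard, hsum⟩ := exists_light_basis a w0 h0 H η hη
    obtain ⟨h1, h2⟩ := basis_lap a T hT hcard (fun e => Real.exp (-η e)) fun e => Real.exp_pos _
    have h1' := (basis_lap a T hT hcard (fun _ => 1) fun _ => one_pos).1
    obtain ⟨h3, h4⟩ := det_le_add_lap h1 a (fun e => Real.exp (-η e))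
      (fun e => (Real.exp_pos _).le) Tᶜ
    have h5 : lap a (fun e => Real.exp (-η e)) T + lap a (fun e => Real.exp (-η e)) Tᶜ
        = lap a (fun e => Real.exp (-η e)) univ := by
      simp only [lap]; exact sum_add_sum_compl T _
    rw [h5] at h3 h4
    refine ⟨h3, ?_⟩
    have h6 := hδ' T h1'.det_pos
    have h7 : ∏ e ∈ T, Real.exp (-η e) = Real.exp (-∑ e ∈ T, η e) := by
      rw [← Real.exp_sum, sum_neg_distrib]
    have h8 : δ * Real.exp (-∑ e ∈ T, η e) ≤ (lap a (fun e => Real.exp (-η e)) univ).det := by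
      rw [h2, h7] at h4
      exact (mul_le_mul_of_nonneg_right h6 (Real.exp_pos _).le).trans h4
    have h9 := Real.log_le_log (mul_pos hδ (Real.exp_pos _)) h8
    rw [Real.log_mul hδ.ne' (Real.exp_pos _).ne', Real.log_exp] at h9
    linarith
  set Φ : (E → ℝ) → ℝ := fun η =>
    Real.log (lap a (fun e => Real.exp (-η e)) univ).det + ∑ e, w e * η e with hΦ
  have hΦlow : ∀ η : E → ℝ, (∀ e, 0 ≤ η e) → ∀ e, Real.log δ + (w e - w0 e) * η e ≤ Φ η := by
    intro η hη e
    have h1 := (hlow η hη).2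
    have h2 : (w e - w0 e) * η e ≤ ∑ e, (w e - w0 e) * η e :=
      single_le_sum (f := fun e => (w e - w0 e) * η e)
        (fun e _ => mul_nonneg (sub_pos.mpr (hw e)).le (hη e)) (mem_univ e)
    have h3 : ∑ e, (w e - w0 e) * η e = ∑ e, w e * η e - ∑ e, w0 e * η e := by
      rw [← sum_sub_distrib]; exact sum_congr rfl fun e _ => by ring
    simp only [hΦ]
    linarith
  set Mx : E → ℝ := fun e => (Φ 0 - Real.log δ) / (w e - w0 e) with hMx
  have hMx0 : ∀ e, 0 ≤ Mx e := by
    intro e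
    have := hΦlow 0 (fun _ => le_rfl) e
    simp only [Pi.zero_apply, mul_zero, add_zero] at this
    exact div_nonneg (by linarith) (sub_pos.mpr (hw e)).le
  have hcont : ContinuousOn Φ (Set.Icc 0 Mx) := by
    refine ContinuousOn.add ?_ (by fun_prop)
    refine ContinuousOn.log ?_ fun η hη => (hlow η hη.1).1.det_pos.ne'
    refine Continuous.continuousOn (Continuous.matrix_det ?_)
    simp only [lap]
    fun_prop
  obtain ⟨η, hη, hmin⟩ := isCompact_Icc.exists_isMinOn ⟨0, le_rfl, hMx0⟩ hcont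
  have hglob : ∀ θ : E → ℝ, (∀ e, 0 ≤ θ e) → Φ η ≤ Φ θ := by
    intro θ hθ
    by_cases h : θ ≤ Mx
    · exact hmin ⟨hθ, h⟩
    · obtain ⟨e, he⟩ : ∃ e, Mx e < θ e := by
        by_contra hh
        push Not at hh
        exact h hh
      have h1 := hΦlow θ hθ e
      have h2 : Φ η ≤ Φ 0 := hmin ⟨le_rfl, hMx0⟩
      simp only [hMx] at he
      rw [div_lt_iff₀ (sub_pos.mpr (hw e))] at he
      nlinarith
  have hη0 : ∀ e, 0 ≤ η e := hη.1
  have hP := (hlow η hη0).1
  refine ⟨fun e => Real.exp (-η e), fun e => ⟨Real.exp_pos _, ?_⟩, hP, fun e => ?_⟩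
  · exact Real.exp_le_one_iff.mpr (by linarith [hη0 e])
  set L := lap a (fun e => Real.exp (-η e)) univ with hL
  set R := a e ⬝ᵥ (L⁻¹ *ᵥ a e) with hR
  have hR0 : 0 ≤ R := by
    have := hP.inv.posSemidef.dotProduct_mulVec_nonneg (a e)
    rwa [star_trivial] at this
  have hlev : 0 ≤ Real.exp (-η e) * R := mul_nonneg (Real.exp_pos _).le hR0
  have hstep : ∀ τ : ℝ, 0 < τ → Real.exp (-η e) * R ≤ w e * (1 + τ) := by
    intro τ hτ
    let θ : E → ℝ := fun x => η x + if x = e then τ else 0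
    have hθ : ∀ x, 0 ≤ θ x := fun x => add_nonneg (hη0 x) (by split_ifs <;> linarith)
    have h1 := hglob θ hθ
    have hP' := (hlow θ hθ).1
    have h2 : lap a (fun x => Real.exp (-θ x)) univ
        = L + (Real.exp (-η e) * (Real.exp (-τ) - 1)) • vecMulVec (a e) (a e) := by
      simp only [hL, lap]
      rw [← Finset.add_sum_erase _ _ (mem_univ e), ← Finset.add_sum_erase _ _ (mem_univ e)]
      have h3 : ∑ x ∈ univ.erase e, Real.exp (-θ x) • vecMulVec (a x) (a x)
          = ∑ x ∈ univ.erase e, Real.exp (-η x) • vecMulVec (a x) (a x) :=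
        sum_congr rfl fun x hx => by simp [θ, ne_of_mem_erase hx]
      have h4 : Real.exp (-θ e) = Real.exp (-η e) + Real.exp (-η e) * (Real.exp (-τ) - 1) := by
        simp only [θ, if_true, neg_add, Real.exp_add]; ring
      rw [h3, h4, add_smul]
      abel
    have h5 : ∑ x, w x * θ x = ∑ x, w x * η x + w e * τ := by
      simp only [θ, mul_add, sum_add_distrib, mul_ite, mul_zero, sum_ite_eq', mem_univ, if_true]
    have hd := hP.det_pos
    have hd' := hP'.det_pos
    simp only [hΦ] at h1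
    rw [h2, det_add_rankOne (isUnit_iff_ne_zero.mpr hd.ne'), ← hR] at hd' h1
    have h6 : 0 < 1 + Real.exp (-η e) * (Real.exp (-τ) - 1) * R := by
      by_contra hh
      push Not at hh
      nlinarith
    rw [Real.log_mul hd.ne' h6.ne', h5, ← hL] at h1
    have h7 := Real.log_le_sub_one_of_pos h6
    have h8 : Real.exp (-τ) * (1 + τ) ≤ 1 := by
      have := Real.add_one_le_exp τ
      have h9 : Real.exp (-τ) * Real.exp τ = 1 := by rw [← Real.exp_add]; simp
      nlinarith [Real.exp_pos (-τ)]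
    have h10 : Real.exp (-η e) * R * (1 - Real.exp (-τ)) ≤ w e * τ := by nlinarith
    have h11 : Real.exp (-η e) * R * τ ≤ w e * (1 + τ) * τ := by nlinarith
    exact le_of_mul_le_mul_right h11 hτ
  have hw0 : 0 < w e := (h0 e).trans_lt (hw e)
  refine le_of_forall_pos_le_add fun ε hε => ?_
  have := hstep (ε / w e) (div_pos hε hw0)
  have h12 : w e * (1 + ε / w e) = w e + ε := by field_simp
  linarith

open Classical in
/-- The covering theorem: the zonotope with weights `w` covers space under twice the lattice. -/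
theorem exists_cover (a : E → ι → ℝ) (w0 w : E → ℝ) (h0 : ∀ e, 0 ≤ w0 e) (hw : ∀ e, w0 e < w e)
    (H : ∀ S : Submodule ℝ (ι → ℝ),
      (Module.finrank ℝ ((ι → ℝ) ⧸ S) : ℝ) ≤ ∑ e ∈ univ.filter (fun e => a e ∉ S), w0 e)
    (β : ι → ℝ) :
    ∃ (z : E → ℤ) (f : E → ℝ), (∀ e, |f e| ≤ w e) ∧
      ∀ i, ∑ e, (f e + 2 * z e) * a e i = β i := by
  obtain ⟨c, hc, hP, hlev⟩ := exists_scaling a w0 (fun e => (w0 e + w e) / 2) h0
    (fun e => by linarith [hw e]) H
  obtain ⟨ε, hε, hε'⟩ := exists_pos_lb (fun e => w e - w0 e)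
  set L := lap a c univ with hL
  have hPi := hP.inv
  have hsymm : ∀ x y : ι → ℝ, x ⬝ᵥ (L⁻¹ *ᵥ y) = y ⬝ᵥ (L⁻¹ *ᵥ x) := by
    intro x y
    have h := hPi.isHermitian
    rw [IsHermitian, conjTranspose_eq_transpose_of_trivial] at h
    rw [dotProduct_mulVec, ← mulVec_transpose, h, dotProduct_comm]
  let X : (E → ℤ) → ι → ℝ := fun z => β - ∑ e, (2 * (z e : ℝ)) • a e
  let Q : (E → ℤ) → ℝ := fun z => X z ⬝ᵥ (L⁻¹ *ᵥ X z)
  have hQ0 : ∀ z, 0 ≤ Q z := by
    intro z
    have := hPi.posSemidef.dotProduct_mulVec_nonneg (X z)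
    rwa [star_trivial] at this
  have hbdd : BddBelow (Set.range Q) := ⟨0, by rintro _ ⟨z, rfl⟩; exact hQ0 z⟩
  obtain ⟨z, hz⟩ : ∃ z, Q z < (⨅ z, Q z) + ε :=
    exists_lt_of_ciInf_lt (lt_add_of_pos_right _ hε)
  have hmove : ∀ (e : E) (k : ℤ), Q z - ε <
      Q z - 4 * k * (a e ⬝ᵥ (L⁻¹ *ᵥ X z)) + 4 * k ^ 2 * (a e ⬝ᵥ (L⁻¹ *ᵥ a e)) := by
    intro e k
    have h1 : (⨅ z, Q z) ≤ Q (z + Pi.single e k) := ciInf_le hbdd _
    have h2 : X (z + Pi.single e k) = X z - (2 * (k : ℝ)) • a e := by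
      simp only [X, Pi.add_apply, Int.cast_add, mul_add, add_smul, sum_add_distrib]
      have h3 : ∑ x, (2 * (((Pi.single e k : E → ℤ) x : ℤ) : ℝ)) • a x = (2 * (k : ℝ)) • a e := by
        rw [Finset.sum_eq_single e]
        · simp
        · intro x _ hx
          simp [Pi.single_eq_of_ne hx]
        · simp
      rw [h3]
      abel
    have h4 : Q (z + Pi.single e k) =
        Q z - 4 * k * (a e ⬝ᵥ (L⁻¹ *ᵥ X z)) + 4 * k ^ 2 * (a e ⬝ᵥ (L⁻¹ *ᵥ a e)) := by
      simp only [Q, h2, mulVec_sub, mulVec_smul, sub_dotProduct, dotProduct_sub, smul_dotProduct,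
        dotProduct_smul, smul_eq_mul, hsymm (X z) (a e)]
      ring
    linarith
  refine ⟨z, fun e => c e * (a e ⬝ᵥ (L⁻¹ *ᵥ X z)), fun e => ?_, fun i => ?_⟩
  · have h1 := hmove e 1
    have h2 := hmove e (-1)
    have h3 := hlev e
    have h4 := hε' e (sub_pos.mpr (hw e))
    obtain ⟨h5, h6⟩ := hc e
    push_cast at h1 h2
    rw [abs_le]
    constructor <;> nlinarith
  · have h1 : L *ᵥ (L⁻¹ *ᵥ X z) = X z := by
      rw [mulVec_mulVec, mul_nonsing_inv _ (isUnit_iff_ne_zero.mpr hP.det_pos.ne'), one_mulVec]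
    rw [hL, lap_mulVec, ← hL] at h1
    have h2 := congrFun h1 i
    simp only [X, Finset.sum_apply, Pi.smul_apply, smul_eq_mul, Pi.sub_apply] at h2 ⊢
    simp only [add_mul, sum_add_distrib]
    linarith

end Pool.Agent.Lib.MP_a2b267_co
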