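import Pool.Agent.Lib.MP_a2b267_co.Main

set_option autoImplicit false

namespace Pool.Agent.Lib.MP_a2b267_co

open Finset

variable {V E : Type} [Fintype V] [DecidableEq V] [Fintype E] [DecidableEq E]

omit [DecidableEq E] in
lemma exists_norm_le_one (P : Set (E → ℝ)) (hP : IsClosed P)
    (H : ∀ ε : ℝ, 0 < ε → ∃ f ∈ P, ∀ e, |f e| ≤ 1 + ε) : ∃ f ∈ P, ∀ e, |f e| ≤ 1 := by
  have hn : ∀ (f : E → ℝ) (r : ℝ), 0 ≤ r → (∀ e, |f e| ≤ r) → ‖f‖ ≤ r := fun f r hr h =>
    (pi_norm_le_iff_of_nonneg hr).mpr h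
  obtain ⟨f₀, hf₀, h₀⟩ := H 1 one_pos
  obtain ⟨f, hf, hmin⟩ := ((isCompact_closedBall (0 : E → ℝ) 2).inter_left hP).exists_isMinOn
    ⟨f₀, hf₀, mem_closedBall_zero_iff.mpr (hn _ _ (by norm_num) fun e => by linarith [h₀ e])⟩
    continuous_norm.continuousOn
  refine ⟨f, hf.1, fun e => le_trans (norm_le_pi_norm f e) ?_⟩
  refine le_of_forall_pos_le_add fun ε hε => ?_
  obtain ⟨g, hg, hg'⟩ := H (min ε 1) (lt_min hε one_pos)
  have h1 : ‖g‖ ≤ 1 + min ε 1 := hn _ _ (by positivity) hg'
  have h2 : ‖f‖ ≤ ‖g‖ := hmin ⟨hg, mem_closedBall_zero_iff.mpr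
    (by linarith [min_le_right ε 1])⟩
  linarith [min_le_left ε 1]

/-- In a `k`-partition-connected graph the outdegrees can be prescribed modulo `k`. -/
theorem orient_main (s t : E → V) (k : ℕ) (hk : 0 < k)
    (hpart : ∀ (α : Type) [DecidableEq α] (π : V → α), (k : ℝ) * (((univ.image π).card : ℝ) - 1) ≤
      (∑ e, if π (s e) ≠ π (t e) then 1 else 0 : ℕ))
    (p : V → ℤ) (hp : (k : ℤ) ∣ ∑ v, p v - Fintype.card E) :
    ∃ o : E → V, (∀ e, o e = s e ∨ o e = t e) ∧
      ∀ v, (k : ℤ) ∣ ((univ.filter fun e => o e = v).card : ℤ) - p v := by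
  classical
  rcases isEmpty_or_nonempty V with hV | ⟨⟨v₀⟩⟩
  · exact ⟨s, fun _ => Or.inl rfl, fun v => hV.elim v⟩
  have hk' : (0 : ℝ) < k := by exact_mod_cast hk
  let q : V → ℤ := fun v => p v - ((univ.filter fun e => t e = v).card : ℤ)
  have hq : (k : ℤ) ∣ ∑ v, q v := by
    have h1 : Fintype.card E = ∑ v, (univ.filter fun e => t e = v).card :=
      card_eq_sum_card_fiberwise fun e _ => mem_univ (t e)
    simp only [q, sum_sub_distrib]
    rw [h1] at hp
    push_cast at hp
    exact hp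
  let P : Set (E → ℝ) := {f | ∀ v, v ≠ v₀ →
    (bd s t (fun e => (1 + f e) / 2) v - q v) / k ∈ Set.range (Int.cast : ℤ → ℝ)}
  have hP : IsClosed P := by
    simp only [P, Set.ofPred_forall]
    refine isClosed_iInter fun v => isClosed_iInter fun _ => ?_
    refine IsClosed.preimage (f := fun f : E → ℝ => (bd s t (fun e => (1 + f e) / 2) v - q v) / k)
      (by unfold bd; fun_prop) Int.isClosedEmbedding_coe_real.isClosed_range
  obtain ⟨f, hf, hf1⟩ := exists_norm_le_one P hP (by
    intro ε hε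
    obtain ⟨z, f, hf, hz⟩ := absorb_of_partition s t (1 / k) ((1 + ε) / k) (by positivity)
      (div_lt_div_of_pos_right (by linarith) hk') univ v₀ (mem_univ _)
      (by
        intro α _ π
        have := hpart α π
        simp only [mem_univ, true_and]
        rw [one_div, ← div_eq_inv_mul, le_div_iff₀ hk']
        linarith)
      (fun v => (2 * q v - bd s t (fun _ => 1) v) / k)
    refine ⟨fun e => k * f e, fun v hv => ?_, fun e => ?_⟩
    · have h1 := hz v (mem_univ _) hv
      simp only [mem_univ, and_self, if_true] at h1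
      refine ⟨- ∑ e, z e * ((if s e = v then 1 else 0) - (if t e = v then 1 else 0)), ?_⟩
      rw [eq_div_iff hk'.ne'] at h1 ⊢
      push_cast
      have h2 : bd s t (fun e => (1 + k * f e) / 2) v = (bd s t (fun _ => 1) v +
          (∑ e, (f e + 2 * z e) * inc s t e v) * k) / 2 - (∑ e, (z e : ℝ) * inc s t e v) * k := by
        simp only [bd, sum_mul, ← sum_add_distrib, sum_div, ← sum_sub_distrib]
        exact sum_congr rfl fun e _ => by ring
      rw [h2, h1]
      simp only [inc]
      ring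
    · have := hf e
      rw [abs_mul, abs_of_pos hk']
      rwa [le_div_iff₀ hk', mul_comm] at this)
  have hall : ∀ v, ∃ y : ℤ, bd s t (fun e => (1 + f e) / 2) v = (q v + k * y : ℤ) := by
    have h1 : ∀ v, ∃ y : ℤ, v ≠ v₀ → bd s t (fun e => (1 + f e) / 2) v = (q v + k * y : ℤ) := by
      intro v
      by_cases hv : v = v₀
      · exact ⟨0, fun h => absurd hv h⟩
      · obtain ⟨y, hy⟩ := hf v hv
        refine ⟨y, fun _ => ?_⟩
        rw [eq_div_iff hk'.ne'] at hy
        push_cast
        linarith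
    choose y hy using h1
    intro v
    by_cases hv : v = v₀
    · obtain ⟨j, hj⟩ := hq
      refine ⟨- j - ∑ u ∈ univ.erase v₀, y u, ?_⟩
      have h2 := sum_bd s t (fun e => (1 + f e) / 2)
      rw [← add_sum_erase _ _ (mem_univ v₀),
        sum_congr rfl fun u hu => hy u (ne_of_mem_erase hu)] at h2
      rw [← add_sum_erase _ _ (mem_univ v₀)] at hj
      have h3 : ((q v₀ + ∑ u ∈ univ.erase v₀, q u : ℤ) : ℝ) = (k * j : ℤ) := by rw [hj]
      push_cast at h2 h3 ⊢
      rw [sum_add_distrib, ← mul_sum] at h2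
      rw [hv]
      linarith
    · exact ⟨y v, hy v hv⟩
  obtain ⟨χ, hχ, hχb⟩ := exists_round s t (fun e => (1 + f e) / 2)
    (fun e => by linarith [(abs_le.mp (hf1 e)).1]) (fun e => by linarith [(abs_le.mp (hf1 e)).2])
    (fun v => (hall v).elim fun y hy => ⟨_, hy⟩)
  refine ⟨fun e => if χ e = 1 then s e else t e, fun e => ?_, fun v => ?_⟩
  · dsimp only
    split_ifs <;> simp
  · obtain ⟨y, hy⟩ := hall v
    refine ⟨y, ?_⟩
    have h1 : ((univ.filter fun e => (if χ e = 1 then s e else t e) = v).card : ℝ)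
        = bd s t χ v + ((univ.filter fun e => t e = v).card : ℝ) := by
      simp only [bd, inc, card_filter, Nat.cast_sum, ← sum_add_distrib]
      refine sum_congr rfl fun e _ => ?_
      rcases hχ e with h | h <;> simp [h]
    rw [hχb, hy] at h1
    have h2 : (((univ.filter fun e => (if χ e = 1 then s e else t e) = v).card : ℤ) : ℝ)
        = ((q v + k * y + ((univ.filter fun e => t e = v).card : ℤ) : ℤ) : ℝ) := by
      push_cast at h1 ⊢
      exact h1
    have h3 := Int.cast_injective h2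
    rw [h3]
    simp only [q]
    ring

end Pool.Agent.Lib.MP_a2b267_co
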